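import Mathlib

/-!
# A supersolvable arrangement with `J^(3) ⊄ J^2`

The arrangement is `B_3` together with three further planes through the axis `x = y = 0`:
`x, y, x ± y, x ± 2y, 2x - y, z, z ± x, z ± y` in `ℂ^3` (twelve planes, defined over `ℚ`).
With `M = z (z^2 - x^2)(z^2 - y^2)`, `ε = (x^2 - 4 y^2)(2x - y)`,
`b = (x^2 - y^2)^2 + z^2 (x^2 + y^2) - 2 z^4`, the form `F = M ε (z (6x + 12y) M + ε b)` of degree
`15` lies in `J^(3)` and not in `J^2`: an explicit linear functional `Lam` on forms of degree `15`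
vanishes on all products of two elements of `J` and takes the value `8` at `F`.
-/

set_option maxHeartbeats 1000000

namespace Pool.Agent.Results.MP_8050b7_ag.ContainmentFails

open MvPolynomial

/-! ### The notions of the problem -/

/-- A linear hyperplane of `ℂ^ℓ`: the kernel of a nonzero linear form. -/
def IsHyperplane {ℓ : ℕ} (H : Submodule ℂ (Fin ℓ → ℂ)) : Prop :=
  ∃ α : (Fin ℓ → ℂ) →ₗ[ℂ] ℂ, α ≠ 0 ∧ H = LinearMap.ker α

/-- The intersection lattice `L(A)`: all intersections of subfamilies of `A`. -/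
def flats {ℓ : ℕ} (A : Finset (Submodule ℂ (Fin ℓ → ℂ))) : Set (Submodule ℂ (Fin ℓ → ℂ)) :=
  {X | ∃ B : Finset (Submodule ℂ (Fin ℓ → ℂ)), B ⊆ A ∧ X = sInf (B : Set (Submodule ℂ (Fin ℓ → ℂ)))}

/-- The rank of a flat: its codimension. -/
noncomputable def rk {ℓ : ℕ} (X : Submodule ℂ (Fin ℓ → ℂ)) : ℕ := ℓ - Module.finrank ℂ X

/-- The meet `X ∧ Y` in `L(A)` (ordered by reverse inclusion): the smallest flat containing
`X` and `Y`. -/
def meet {ℓ : ℕ} (A : Finset (Submodule ℂ (Fin ℓ → ℂ))) (X Y : Submodule ℂ (Fin ℓ → ℂ)) :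
    Submodule ℂ (Fin ℓ → ℂ) := sInf {H | H ∈ A ∧ X ⊔ Y ≤ H}

/-- Modular flats; the join `X ∨ Y` in `L(A)` is the intersection `X ⊓ Y`. -/
def IsModular {ℓ : ℕ} (A : Finset (Submodule ℂ (Fin ℓ → ℂ))) (X : Submodule ℂ (Fin ℓ → ℂ)) :
    Prop := ∀ Y ∈ flats A, rk X + rk Y = rk (X ⊓ Y) + rk (meet A X Y)

/-- `L(A)` has a maximal chain consisting of modular elements. -/
def IsSupersolvable {ℓ : ℕ} (A : Finset (Submodule ℂ (Fin ℓ → ℂ))) : Prop :=
  ∃ K : Set (Submodule ℂ (Fin ℓ → ℂ)), K ⊆ flats A ∧ IsChain (· ≤ ·) K ∧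
    (∀ D : Set (Submodule ℂ (Fin ℓ → ℂ)), D ⊆ flats A → IsChain (· ≤ ·) D → K ⊆ D → D = K) ∧
    ∀ X ∈ K, IsModular A X

/-- The ideal `I(X)` of a linear subspace `X ⊆ ℂ^ℓ`: all polynomials vanishing on `X`. -/
def idealOf {ℓ : ℕ} (X : Submodule ℂ (Fin ℓ → ℂ)) : Ideal (MvPolynomial (Fin ℓ) ℂ) where
  carrier := {f | ∀ v ∈ X, eval v f = 0}
  add_mem' := by
    intro f g hf hg v hv
    rw [map_add, hf v hv, hg v hv, add_zero]
  zero_mem' := by
    intro v _
    exact map_zero _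
  smul_mem' := by
    intro c f hf v hv
    rw [smul_eq_mul, map_mul, hf v hv, mul_zero]

/-- The codimension-two flats. -/
def codimTwo {ℓ : ℕ} (A : Finset (Submodule ℂ (Fin ℓ → ℂ))) : Set (Submodule ℂ (Fin ℓ → ℂ)) :=
  {X | X ∈ flats A ∧ rk X = 2}

/-- The ideal `J(A)` of the singular locus. -/
noncomputable def singIdeal {ℓ : ℕ} (A : Finset (Submodule ℂ (Fin ℓ → ℂ))) : Ideal (MvPolynomial (Fin ℓ) ℂ) :=
  ⨅ X ∈ codimTwo A, idealOf X

/-- The symbolic power `J(A)^(m)`. -/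
noncomputable def symbPow {ℓ : ℕ} (A : Finset (Submodule ℂ (Fin ℓ → ℂ))) (m : ℕ) :
    Ideal (MvPolynomial (Fin ℓ) ℂ) := ⨅ X ∈ codimTwo A, idealOf X ^ m

/-- scaling of homogeneous polynomials -/
theorem eval_scale {n s : ℕ} {φ : MvPolynomial (Fin n) ℂ} (h : φ.IsHomogeneous s) (c : ℂ)
    (v : Fin n → ℂ) : eval (fun i => c * v i) φ = c ^ s * eval v φ := by
  rw [MvPolynomial.eval_eq', MvPolynomial.eval_eq', Finset.mul_sum]
  refine Finset.sum_congr rfl fun d hd => ?_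
  have hdeg : ∑ i, d i = s := by
    have := h.degree_eq_sum_deg_support hd
    rw [this]
    symm
    refine Finset.sum_subset (Finset.subset_univ _) ?_
    intro i _ hi
    simpa using hi
  have : ∏ i, (c * v i) ^ d i = c ^ s * ∏ i, v i ^ d i := by
    simp_rw [mul_pow]
    rw [Finset.prod_mul_distrib, Finset.prod_pow_eq_pow_sum, hdeg]
  rw [this]; ring

theorem eval_aeval {n : ℕ} (g : Fin n → Polynomial ℂ) (G : MvPolynomial (Fin n) ℂ) (t : ℂ) :
    (aeval g G : Polynomial ℂ).eval t = eval (fun i => (g i).eval t) G := by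
  induction G using MvPolynomial.induction_on with
  | C a => simp
  | add p q hp hq => simp [hp, hq]
  | mul_X p i hp => simp [hp]

/-- the binary form lemma: vanishing at more than `s` directions -/
theorem binary_zero {s : ℕ} {G : MvPolynomial (Fin 2) ℂ} (h : G.IsHomogeneous s)
    (T : Finset ℂ) (hT : s < T.card)
    (hv : ∀ t ∈ T, eval ![t, 1 - 3 * t] G = 0) : G = 0 := by
  classical
  set P : Polynomial ℂ := aeval ![Polynomial.X, 1 - Polynomial.C 3 * Polynomial.X] G with hP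
  have hdeg : P.natDegree ≤ s * 1 := by
    refine MvPolynomial.aeval_natDegree_le G h.totalDegree_le _ ?_
    intro i
    fin_cases i
    · simp
    · simp only [Fin.mk_one, Matrix.cons_val_one, Matrix.cons_val_fin_one]
      compute_degree
  have hev : ∀ t : ℂ, P.eval t = eval ![t, 1 - 3 * t] G := by
    intro t
    rw [hP, eval_aeval]
    congr 2
    funext i
    fin_cases i <;> simp
  have hP0 : P = 0 := by
    refine Polynomial.eq_zero_of_natDegree_lt_card_of_eval_eq_zero' P T ?_ ?_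
    · intro t ht; rw [hev]; exact hv t ht
    · omega
  -- now conclude
  have hne : (X 1 + C 3 * X 0 : MvPolynomial (Fin 2) ℂ) ≠ 0 := by
    intro h0
    have := congrArg (eval ![0, 1]) h0
    simp at this
  have hprod : (X 1 + C 3 * X 0 : MvPolynomial (Fin 2) ℂ) * G = 0 := by
    apply MvPolynomial.funext
    intro v
    rw [map_mul, map_zero]
    by_cases hw : v 1 + 3 * v 0 = 0
    · have : eval v (X 1 + C 3 * X 0 : MvPolynomial (Fin 2) ℂ) = 0 := by simpa using hw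
      rw [this, zero_mul]
    · have hvv : v = fun i => (v 1 + 3 * v 0) * (![v 0 / (v 1 + 3 * v 0),
          1 - 3 * (v 0 / (v 1 + 3 * v 0))] : Fin 2 → ℂ) i := by
        funext i
        fin_cases i
        · simp only [Fin.zero_eta, Matrix.cons_val_zero]
          rw [mul_div_cancel₀ _ hw]
        · simp only [Fin.mk_one, Matrix.cons_val_one, Matrix.cons_val_fin_one]
          have : (v 1 + 3 * v 0) * (v 0 / (v 1 + 3 * v 0)) = v 0 := mul_div_cancel₀ _ hw
          linear_combination (3 : ℂ) * this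
      have : eval v G = 0 := by
        rw [hvv, eval_scale h, ← hev, hP0]; simp
      rw [this, mul_zero]
  rcases mul_eq_zero.mp hprod with h1 | h1
  · exact absurd h1 hne
  · exact h1

/-- restriction to the plane `z = a x + b y` -/
noncomputable def res (a b : ℂ) : MvPolynomial (Fin 3) ℂ →ₐ[ℂ] MvPolynomial (Fin 2) ℂ :=
  aeval ![X 0, X 1, C a * X 0 + C b * X 1]

theorem eval_res (a b : ℂ) (A : MvPolynomial (Fin 3) ℂ) (u w : ℂ) :
    eval ![u, w] (res a b A) = eval ![u, w, a * u + b * w] A := by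
  unfold res
  induction A using MvPolynomial.induction_on with
  | C a => simp
  | add p q hp hq => rw [map_add, map_add, map_add, hp, hq]
  | mul_X p i hp =>
    rw [map_mul, map_mul, hp, map_mul]
    congr 1
    fin_cases i <;> simp

theorem res_homog (a b : ℂ) {A : MvPolynomial (Fin 3) ℂ} {s : ℕ} (h : A.IsHomogeneous s) :
    (res a b A).IsHomogeneous s := by
  have := h.aeval (τ := Fin 2) (n := 1) ![X 0, X 1, C a * X 0 + C b * X 1] (by
    intro i
    fin_cases i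
    · exact isHomogeneous_X ℂ 0
    · exact isHomogeneous_X ℂ 1
    · exact (isHomogeneous_C_mul_X a 0).add (isHomogeneous_C_mul_X b 1))
  rw [one_mul] at this
  exact this

/-- directions of the seven planes through the axis -/
def du : Fin 7 → ℂ := ![0, 1, 1, 1, 2, 2, 1]
def dw : Fin 7 → ℂ := ![1, 0, 1, -1, 1, -1, 2]

theorem du_0 : du 0 = 0 := rfl
theorem du_1 : du 1 = 1 := rfl
theorem du_2 : du 2 = 1 := rfl
theorem du_3 : du 3 = 1 := rfl
theorem du_4 : du 4 = 2 := rfl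
theorem du_5 : du 5 = 2 := rfl
theorem du_6 : du 6 = 1 := rfl
theorem dw_0 : dw 0 = 1 := rfl
theorem dw_1 : dw 1 = 0 := rfl
theorem dw_2 : dw 2 = 1 := rfl
theorem dw_3 : dw 3 = -1 := rfl
theorem dw_4 : dw 4 = 1 := rfl
theorem dw_5 : dw 5 = -1 := rfl
theorem dw_6 : dw 6 = 2 := rfl

/-- `A` vanishes at the seven special points of the plane `z = a x + b y` -/
def Good (a b : ℂ) (A : MvPolynomial (Fin 3) ℂ) : Prop :=
  ∀ k : Fin 7, eval ![du k, dw k, a * du k + b * dw k] A = 0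

noncomputable def T7 : Finset ℂ := {0, 1/3, 1/4, 1/2, 2/7, 2/5, 1/5}

theorem T7_card : T7.card = 7 := by
  unfold T7
  rw [Finset.card_insert_of_notMem, Finset.card_insert_of_notMem, Finset.card_insert_of_notMem,
    Finset.card_insert_of_notMem, Finset.card_insert_of_notMem, Finset.card_insert_of_notMem,
    Finset.card_singleton]
  all_goals
    simp only [Finset.mem_insert, Finset.mem_singleton]
    norm_num

theorem res_vanish {a b : ℂ} {A : MvPolynomial (Fin 3) ℂ} {s : ℕ} (h : A.IsHomogeneous s)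
    (hg : Good a b A) : ∀ t ∈ T7, eval ![t, 1 - 3 * t] (res a b A) = 0 := by
  have key : ∀ k : Fin 7, ∀ c : ℂ, eval ![c * du k, c * dw k] (res a b A) = 0 := by
    intro k c
    have h1 : (![c * du k, c * dw k] : Fin 2 → ℂ) = fun i => c * (![du k, dw k] : Fin 2 → ℂ) i := by
      funext i; fin_cases i <;> simp
    rw [h1, eval_scale (res_homog a b h), eval_res, hg k, mul_zero]
  intro t ht
  simp only [T7, Finset.mem_insert, Finset.mem_singleton] at ht
  rcases ht with h | h | h | h | h | h | h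
  · have := key 0 1; rw [du_0, dw_0] at this; subst h; convert this using 3; norm_num
  · have := key 1 (1/3); rw [du_1, dw_1] at this; subst h; convert this using 3 <;> norm_num
  · have := key 2 (1/4); rw [du_2, dw_2] at this; subst h; convert this using 3 <;> norm_num
  · have := key 3 (1/2); rw [du_3, dw_3] at this; subst h; convert this using 3 <;> norm_num
  · have := key 4 (1/7); rw [du_4, dw_4] at this; subst h; convert this using 3 <;> norm_num
  · have := key 5 (1/5); rw [du_5, dw_5] at this; subst h; convert this using 3 <;> norm_num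
  · have := key 6 (1/5); rw [du_6, dw_6] at this; subst h; convert this using 3 <;> norm_num

theorem res_zero {a b : ℂ} {A : MvPolynomial (Fin 3) ℂ} {s : ℕ} (h : A.IsHomogeneous s)
    (hs : s < 7) (hg : Good a b A) : res a b A = 0 :=
  binary_zero (res_homog a b h) T7 (by rw [T7_card]; exact hs) (res_vanish h hg)

noncomputable def pi2 : MvPolynomial (Fin 2) ℂ :=
  X 0 * X 1 * (X 0 - X 1) * (X 0 + X 1) * (X 0 - C 2 * X 1) * (X 0 + C 2 * X 1) * (C 2 * X 0 - X 1)

theorem lin_homog (a b : ℂ) : (C a * X 0 + C b * X 1 : MvPolynomial (Fin 2) ℂ).IsHomogeneous 1 :=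
  (isHomogeneous_C_mul_X a 0).add (isHomogeneous_C_mul_X b 1)

theorem pi2_homog : pi2.IsHomogeneous 7 := by
  have e : pi2 = (C 1 * X 0 + C 0 * X 1) * (C 0 * X 0 + C 1 * X 1) * (C 1 * X 0 + C (-1) * X 1)
    * (C 1 * X 0 + C 1 * X 1) * (C 1 * X 0 + C (-2) * X 1) * (C 1 * X 0 + C 2 * X 1)
    * (C 2 * X 0 + C (-1) * X 1) := by
    unfold pi2; simp only [map_one, map_zero, map_neg]; ring
  rw [e]
  exact ((((((lin_homog _ _).mul (lin_homog _ _)).mul (lin_homog _ _)).mul (lin_homog _ _)).mul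
    (lin_homog _ _)).mul (lin_homog _ _)).mul (lin_homog _ _)

theorem pi2_eval (u w : ℂ) : eval ![u, w] pi2 =
    u * w * (u - w) * (u + w) * (u - 2 * w) * (u + 2 * w) * (2 * u - w) := by
  unfold pi2
  simp [MvPolynomial.eval_C]

theorem pi2_T7 : ∀ t ∈ T7, eval ![t, 1 - 3 * t] pi2 = 0 := by
  intro t ht
  rw [pi2_eval]
  simp only [T7, Finset.mem_insert, Finset.mem_singleton] at ht
  rcases ht with h | h | h | h | h | h | h <;> subst h <;> norm_num

theorem res_seven {a b : ℂ} {A : MvPolynomial (Fin 3) ℂ} (h : A.IsHomogeneous 7)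
    (hg : Good a b A) : ∃ α : ℂ, res a b A = C α * pi2 := by
  classical
  have h1 : eval ![(1:ℂ), 1 - 3 * 1] pi2 = -360 := by rw [pi2_eval]; norm_num
  refine ⟨eval ![(1:ℂ), 1 - 3 * 1] (res a b A) / (-360), ?_⟩
  rw [← sub_eq_zero]
  refine binary_zero (s := 7) ((res_homog a b h).sub (pi2_homog.C_mul _)) (insert 1 T7) ?_ ?_
  · rw [Finset.card_insert_of_notMem, T7_card]
    · norm_num
    · unfold T7; simp only [Finset.mem_insert, Finset.mem_singleton]; norm_num
  · intro t ht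
    rw [map_sub, map_mul, eval_C]
    rcases Finset.mem_insert.mp ht with h2 | h2
    · subst h2; rw [h1]; ring
    · rw [res_vanish h hg t h2, pi2_T7 t h2]; ring

theorem res_eight {a b : ℂ} {A : MvPolynomial (Fin 3) ℂ} (h : A.IsHomogeneous 8)
    (hg : Good a b A) : ∃ p q : ℂ, res a b A = (C p * X 0 + C q * X 1) * pi2 := by
  classical
  have h1 : eval ![(1:ℂ), 1 - 3 * 1] pi2 = -360 := by rw [pi2_eval]; norm_num
  have h2 : eval ![(-1:ℂ), 1 - 3 * (-1)] pi2 = 22680 := by rw [pi2_eval]; norm_num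
  set e1 : ℂ := eval ![(1:ℂ), 1 - 3 * 1] (res a b A) / (-360) with he1
  set e2 : ℂ := eval ![(-1:ℂ), 1 - 3 * (-1)] (res a b A) / 22680 with he2
  -- p - 2 q = e1, -p + 4 q = e2
  refine ⟨2 * e1 + e2, (e1 + e2) / 2, ?_⟩
  rw [← sub_eq_zero]
  refine binary_zero (s := 8) ((res_homog a b h).sub ?_) (insert 1 (insert (-1) T7)) ?_ ?_
  · have := (lin_homog (2 * e1 + e2) ((e1 + e2) / 2)).mul pi2_homog
    exact this
  · rw [Finset.card_insert_of_notMem, Finset.card_insert_of_notMem, T7_card]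
    · norm_num
    · unfold T7; simp only [Finset.mem_insert, Finset.mem_singleton]; norm_num
    · unfold T7; simp only [Finset.mem_insert, Finset.mem_singleton]; norm_num
  · intro t ht
    rw [map_sub, map_mul, map_add, map_mul, map_mul, eval_C, eval_C, eval_X, eval_X]
    simp only [Matrix.cons_val_zero, Matrix.cons_val_one, Matrix.cons_val_fin_one]
    rcases Finset.mem_insert.mp ht with h3 | h3
    · subst h3; rw [h1]
      have : eval ![(1:ℂ), 1 - 3 * 1] (res a b A) = -360 * e1 := by rw [he1]; ring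
      rw [this]; ring
    rcases Finset.mem_insert.mp h3 with h3 | h3
    · subst h3; rw [h2]
      have : eval ![(-1:ℂ), 1 - 3 * (-1)] (res a b A) = 22680 * e2 := by rw [he2]; ring
      rw [this]; ring
    · rw [res_vanish h hg t h3, pi2_T7 t h3]; ring

theorem aeval_res (a b : ℂ) (U W : Polynomial ℂ) (A : MvPolynomial (Fin 3) ℂ) :
    aeval ![U, W] (res a b A) =
      aeval ![U, W, Polynomial.C a * U + Polynomial.C b * W] A := by
  apply Polynomial.funext
  intro t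
  rw [eval_aeval, eval_aeval]
  have h1 : (fun i => (![U, W] i).eval t) = ![U.eval t, W.eval t] := by
    funext i; fin_cases i <;> simp
  have h2 : (fun i => (![U, W, Polynomial.C a * U + Polynomial.C b * W] i).eval t) =
      ![U.eval t, W.eval t, a * U.eval t + b * W.eval t] := by
    funext i; fin_cases i <;> simp
  rw [h1, h2, eval_res]

/-! ### identities at the two triple points -/

theorem aeval_mon3 (f g h : Polynomial ℂ) (d : Fin 3 →₀ ℕ) (c : ℂ) :
    aeval ![f, g, h] (monomial d c) = Polynomial.C c * (f ^ d 0 * g ^ d 1 * h ^ d 2) := by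
  rw [aeval_monomial, Finsupp.prod_fintype _ _ (by intro i; simp), Fin.prod_univ_three]
  rfl

theorem coefA (i k m : ℕ) (a : ℂ) :
    (Polynomial.X ^ i * (Polynomial.C a * Polynomial.X) ^ k : Polynomial ℂ).coeff m =
      if i + k = m then a ^ k else 0 := by
  have : (Polynomial.X ^ i * (Polynomial.C a * Polynomial.X) ^ k : Polynomial ℂ) =
      Polynomial.C (a ^ k) * Polynomial.X ^ (i + k) := by
    rw [mul_pow, ← Polynomial.C_pow, pow_add]; ring
  rw [this, Polynomial.coeff_C_mul, Polynomial.coeff_X_pow]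
  by_cases h : i + k = m
  · rw [if_pos h, if_pos h.symm, mul_one]
  · rw [if_neg h, if_neg (fun h' => h h'.symm), mul_zero]

theorem coefB (i k m : ℕ) :
    ((0 : Polynomial ℂ) ^ i * Polynomial.X ^ k : Polynomial ℂ).coeff m =
      if i = 0 ∧ k = m then 1 else 0 := by
  rcases i with _ | i
  · rw [pow_zero, one_mul, Polynomial.coeff_X_pow]
    by_cases h : k = m
    · rw [if_pos h.symm, if_pos ⟨rfl, h⟩]
    · rw [if_neg (fun h' => h h'.symm), if_neg (fun h' => h h'.2)]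
  · simp

/-- jets at `(0:1:0)` along the planes `z = a x` -/
theorem jetT1 (A : MvPolynomial (Fin 3) ℂ) :
    ∃ e00 e10 e01 e20 e11 e02 : ℂ,
      (∀ a : ℂ, (aeval ![Polynomial.X, 1, Polynomial.C a * Polynomial.X] A : Polynomial ℂ).coeff 0
          = e00 ∧
        (aeval ![Polynomial.X, 1, Polynomial.C a * Polynomial.X] A : Polynomial ℂ).coeff 1
          = e10 + e01 * a ∧
        (aeval ![Polynomial.X, 1, Polynomial.C a * Polynomial.X] A : Polynomial ℂ).coeff 2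
          = e20 + e11 * a + e02 * a ^ 2) ∧
      (aeval ![0, 1, Polynomial.X] A : Polynomial ℂ).coeff 0 = e00 ∧
      (aeval ![0, 1, Polynomial.X] A : Polynomial ℂ).coeff 1 = e01 ∧
      (aeval ![0, 1, Polynomial.X] A : Polynomial ℂ).coeff 2 = e02 := by
  induction A using MvPolynomial.induction_on' with
  | monomial d c =>
    simp only [aeval_mon3, one_pow, mul_one, Polynomial.coeff_C_mul, coefA, coefB]
    generalize d 0 = i
    generalize d 2 = k
    refine ⟨if i = 0 ∧ k = 0 then c else 0, if i = 1 ∧ k = 0 then c else 0,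
      if i = 0 ∧ k = 1 then c else 0, if i = 2 ∧ k = 0 then c else 0,
      if i = 1 ∧ k = 1 then c else 0, if i = 0 ∧ k = 2 then c else 0, ?_, ?_, ?_, ?_⟩
    · intro a
      rcases i with _ | _ | _ | i <;> rcases k with _ | _ | _ | k <;>
        simp <;> (try omega)
    · rcases i with _ | i <;> rcases k with _ | k <;> simp
    · rcases i with _ | i <;> rcases k with _ | _ | k <;> simp
    · rcases i with _ | i <;> rcases k with _ | _ | _ | k <;> simp
  | add p q hp hq =>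
    obtain ⟨a1, a2, a3, a4, a5, a6, h1, h2, h3, h4⟩ := hp
    obtain ⟨b1, b2, b3, b4, b5, b6, g1, g2, g3, g4⟩ := hq
    refine ⟨a1 + b1, a2 + b2, a3 + b3, a4 + b4, a5 + b5, a6 + b6, ?_, ?_, ?_, ?_⟩
    · intro a
      obtain ⟨r1, r2, r3⟩ := h1 a
      obtain ⟨s1, s2, s3⟩ := g1 a
      simp only [map_add, Polynomial.coeff_add]
      refine ⟨by rw [r1, s1], by rw [r2, s2]; ring, by rw [r3, s3]; ring⟩
    · simp only [map_add, Polynomial.coeff_add]; rw [h2, g2]
    · simp only [map_add, Polynomial.coeff_add]; rw [h3, g3]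
    · simp only [map_add, Polynomial.coeff_add]; rw [h4, g4]

/-- jets at `(1:0:0)` along the planes `z = b y` -/
theorem jetT2 (A : MvPolynomial (Fin 3) ℂ) :
    ∃ e00 e10 e01 e20 e11 e02 : ℂ,
      (∀ a : ℂ, (aeval ![1, Polynomial.X, Polynomial.C a * Polynomial.X] A : Polynomial ℂ).coeff 0
          = e00 ∧
        (aeval ![1, Polynomial.X, Polynomial.C a * Polynomial.X] A : Polynomial ℂ).coeff 1
          = e10 + e01 * a ∧
        (aeval ![1, Polynomial.X, Polynomial.C a * Polynomial.X] A : Polynomial ℂ).coeff 2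
          = e20 + e11 * a + e02 * a ^ 2) ∧
      (aeval ![1, 0, Polynomial.X] A : Polynomial ℂ).coeff 0 = e00 ∧
      (aeval ![1, 0, Polynomial.X] A : Polynomial ℂ).coeff 1 = e01 ∧
      (aeval ![1, 0, Polynomial.X] A : Polynomial ℂ).coeff 2 = e02 := by
  induction A using MvPolynomial.induction_on' with
  | monomial d c =>
    simp only [aeval_mon3, one_pow, one_mul, Polynomial.coeff_C_mul, coefA, coefB]
    generalize d 1 = i
    generalize d 2 = k
    refine ⟨if i = 0 ∧ k = 0 then c else 0, if i = 1 ∧ k = 0 then c else 0,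
      if i = 0 ∧ k = 1 then c else 0, if i = 2 ∧ k = 0 then c else 0,
      if i = 1 ∧ k = 1 then c else 0, if i = 0 ∧ k = 2 then c else 0, ?_, ?_, ?_, ?_⟩
    · intro a
      rcases i with _ | _ | _ | i <;> rcases k with _ | _ | _ | k <;>
        simp <;> (try omega)
    · rcases i with _ | i <;> rcases k with _ | k <;> simp
    · rcases i with _ | i <;> rcases k with _ | _ | k <;> simp
    · rcases i with _ | i <;> rcases k with _ | _ | _ | k <;> simp
  | add p q hp hq =>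
    obtain ⟨a1, a2, a3, a4, a5, a6, h1, h2, h3, h4⟩ := hp
    obtain ⟨b1, b2, b3, b4, b5, b6, g1, g2, g3, g4⟩ := hq
    refine ⟨a1 + b1, a2 + b2, a3 + b3, a4 + b4, a5 + b5, a6 + b6, ?_, ?_, ?_, ?_⟩
    · intro a
      obtain ⟨r1, r2, r3⟩ := h1 a
      obtain ⟨s1, s2, s3⟩ := g1 a
      simp only [map_add, Polynomial.coeff_add]
      refine ⟨by rw [r1, s1], by rw [r2, s2]; ring, by rw [r3, s3]; ring⟩
    · simp only [map_add, Polynomial.coeff_add]; rw [h2, g2]
    · simp only [map_add, Polynomial.coeff_add]; rw [h3, g3]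
    · simp only [map_add, Polynomial.coeff_add]; rw [h4, g4]

/-! ### the points `(1 : v : e)` -/

theorem coef1_one_add_X_pow (k : ℕ) : ((1 + Polynomial.X : Polynomial ℂ) ^ k).coeff 1 = k := by
  rw [Polynomial.coeff_one_add_X_pow]; simp

theorem jetQ (A : MvPolynomial (Fin 3) ℂ) (v e : ℂ) :
    (aeval ![1 + Polynomial.X, Polynomial.C v * (1 + Polynomial.X),
      Polynomial.C e * (1 + Polynomial.X)] A : Polynomial ℂ).coeff 1 =
    (aeval ![1 + Polynomial.X, Polynomial.C v, Polynomial.C e] A : Polynomial ℂ).coeff 1 +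
    (aeval ![1, Polynomial.C v * (1 + Polynomial.X), Polynomial.C e] A : Polynomial ℂ).coeff 1 +
    (aeval ![1, Polynomial.C v, Polynomial.C e * (1 + Polynomial.X)] A : Polynomial ℂ).coeff 1 := by
  induction A using MvPolynomial.induction_on' with
  | monomial d c =>
    simp only [aeval_mon3]
    generalize d 0 = i
    generalize d 1 = j
    generalize d 2 = k
    have h1 : (Polynomial.C c * ((1 + Polynomial.X) ^ i * (Polynomial.C v * (1 + Polynomial.X)) ^ j *
        (Polynomial.C e * (1 + Polynomial.X)) ^ k) : Polynomial ℂ) =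
        Polynomial.C (c * v ^ j * e ^ k) * (1 + Polynomial.X) ^ (i + j + k) := by
      simp only [Polynomial.C_mul, Polynomial.C_pow, mul_pow, pow_add]; ring
    have h2 : (Polynomial.C c * ((1 + Polynomial.X) ^ i * (Polynomial.C v) ^ j *
        (Polynomial.C e) ^ k) : Polynomial ℂ) =
        Polynomial.C (c * v ^ j * e ^ k) * (1 + Polynomial.X) ^ i := by
      simp only [Polynomial.C_mul, Polynomial.C_pow]; ring
    have h3 : (Polynomial.C c * (1 ^ i * (Polynomial.C v * (1 + Polynomial.X)) ^ j *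
        (Polynomial.C e) ^ k) : Polynomial ℂ) =
        Polynomial.C (c * v ^ j * e ^ k) * (1 + Polynomial.X) ^ j := by
      simp only [Polynomial.C_mul, Polynomial.C_pow, mul_pow]; ring
    have h4 : (Polynomial.C c * (1 ^ i * (Polynomial.C v) ^ j *
        (Polynomial.C e * (1 + Polynomial.X)) ^ k) : Polynomial ℂ) =
        Polynomial.C (c * v ^ j * e ^ k) * (1 + Polynomial.X) ^ k := by
      simp only [Polynomial.C_mul, Polynomial.C_pow, mul_pow]; ring
    rw [h1, h2, h3, h4]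
    simp only [Polynomial.coeff_C_mul, coef1_one_add_X_pow]
    push_cast; ring
  | add p q hp hq =>
    simp only [map_add, Polynomial.coeff_add, hp, hq]; ring

theorem jetQ_homog {A : MvPolynomial (Fin 3) ℂ} {s : ℕ} (h : A.IsHomogeneous s) (v e : ℂ)
    (h0 : eval ![1, v, e] A = 0) :
    (aeval ![1, Polynomial.C v, Polynomial.C e * (1 + Polynomial.X)] A : Polynomial ℂ).coeff 1 =
    - (aeval ![1 + Polynomial.X, Polynomial.C v, Polynomial.C e] A : Polynomial ℂ).coeff 1 -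
    (aeval ![1, Polynomial.C v * (1 + Polynomial.X), Polynomial.C e] A : Polynomial ℂ).coeff 1 := by
  have hz : (aeval ![1 + Polynomial.X, Polynomial.C v * (1 + Polynomial.X),
      Polynomial.C e * (1 + Polynomial.X)] A : Polynomial ℂ) = 0 := by
    apply Polynomial.funext
    intro t
    rw [eval_aeval]
    have : (fun i => (![1 + Polynomial.X, Polynomial.C v * (1 + Polynomial.X),
      Polynomial.C e * (1 + Polynomial.X)] i).eval t) =
      fun i => (1 + t) * (![1, v, e] : Fin 3 → ℂ) i := by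
      funext i; fin_cases i <;> simp <;> ring
    rw [this, eval_scale h, h0]; simp
  have := jetQ A v e
  rw [hz, Polynomial.coeff_zero] at this
  linear_combination -this

theorem coef0_Q (A : MvPolynomial (Fin 3) ℂ) (v e : ℂ) :
    (aeval ![1, Polynomial.C v, Polynomial.C e * (1 + Polynomial.X)] A : Polynomial ℂ).coeff 0 =
    eval ![1, v, e] A := by
  rw [Polynomial.coeff_zero_eq_eval_zero, eval_aeval]
  congr 2
  funext i; fin_cases i <;> simp

theorem cm1 (P Q : Polynomial ℂ) :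
    (P * Q).coeff 1 = P.coeff 0 * Q.coeff 1 + P.coeff 1 * Q.coeff 0 := by
  rw [Polynomial.coeff_mul]; simp [Finset.Nat.antidiagonal_succ]

theorem cm2 (P Q : Polynomial ℂ) :
    (P * Q).coeff 2 = P.coeff 0 * Q.coeff 2 + P.coeff 1 * Q.coeff 1 + P.coeff 2 * Q.coeff 0 := by
  rw [Polynomial.coeff_mul]; simp [Finset.Nat.antidiagonal_succ]; ring

theorem cm3 (P Q : Polynomial ℂ) :
    (P * Q).coeff 3 = P.coeff 0 * Q.coeff 3 + P.coeff 1 * Q.coeff 2 + P.coeff 2 * Q.coeff 1 +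
      P.coeff 3 * Q.coeff 0 := by
  rw [Polynomial.coeff_mul]; simp [Finset.Nat.antidiagonal_succ]; ring

theorem cf (a b : ℂ) (G : Polynomial ℂ) :
    (Polynomial.C a * Polynomial.X + Polynomial.C b * Polynomial.X ^ 2 +
      Polynomial.X ^ 3 * G).coeff 0 = 0 ∧
    (Polynomial.C a * Polynomial.X + Polynomial.C b * Polynomial.X ^ 2 +
      Polynomial.X ^ 3 * G).coeff 1 = a ∧
    (Polynomial.C a * Polynomial.X + Polynomial.C b * Polynomial.X ^ 2 +
      Polynomial.X ^ 3 * G).coeff 2 = b := by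
  refine ⟨?_, ?_, ?_⟩
  · simp [Polynomial.coeff_X_pow_mul']
  · simp [Polynomial.coeff_X_pow_mul', Polynomial.coeff_X_pow]
  · simp [Polynomial.coeff_X_pow_mul', Polynomial.coeff_X_pow, Polynomial.coeff_X]

/-- the values of the paths of `pi2` -/
theorem pi_path1 : (aeval ![Polynomial.X, 1] pi2 : Polynomial ℂ) =
    Polynomial.C (-4) * Polynomial.X + Polynomial.C 8 * Polynomial.X ^ 2 +
      Polynomial.X ^ 3 * (Polynomial.C 5 - Polynomial.C 10 * Polynomial.X - Polynomial.X ^ 2 +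
        Polynomial.C 2 * Polynomial.X ^ 3) := by
  unfold pi2
  simp only [map_mul, map_add, map_sub, aeval_X, algHom_C, Polynomial.algebraMap_eq,
    Matrix.cons_val_zero, Matrix.cons_val_one, Matrix.cons_val_fin_one]
  simp only [map_neg, map_ofNat]
  ring

theorem pi_path2 : (aeval ![1, Polynomial.X] pi2 : Polynomial ℂ) =
    Polynomial.C 2 * Polynomial.X + Polynomial.C (-1) * Polynomial.X ^ 2 +
      Polynomial.X ^ 3 * (-Polynomial.C 10 + Polynomial.C 5 * Polynomial.X +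
        Polynomial.C 8 * Polynomial.X ^ 2 - Polynomial.C 4 * Polynomial.X ^ 3) := by
  unfold pi2
  simp only [map_mul, map_add, map_sub, aeval_X, algHom_C, Polynomial.algebraMap_eq,
    Matrix.cons_val_zero, Matrix.cons_val_one, Matrix.cons_val_fin_one]
  simp only [map_neg, map_ofNat, map_one]
  ring

theorem coef1_of_eval {P Q : Polynomial ℂ} (h : P = Polynomial.X * Q) :
    P.coeff 0 = 0 ∧ P.coeff 1 = Q.eval 0 := by
  subst h
  constructor
  · simp
  · rw [Polynomial.coeff_X_mul, Polynomial.coeff_zero_eq_eval_zero]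

theorem pi_u1 : (aeval ![1 + Polynomial.X, Polynomial.C 1] pi2 : Polynomial ℂ).coeff 0 = 0 ∧
    (aeval ![1 + Polynomial.X, Polynomial.C 1] pi2 : Polynomial ℂ).coeff 1 = -6 := by
  have h : (aeval ![1 + Polynomial.X, Polynomial.C 1] pi2 : Polynomial ℂ) =
      Polynomial.X * ((1 + Polynomial.X) * (2 + Polynomial.X) * (Polynomial.X - 1) *
        (Polynomial.X + 3) * (2 * Polynomial.X + 1)) := by
    unfold pi2
    simp only [map_mul, map_add, map_sub, aeval_X, algHom_C, Polynomial.algebraMap_eq,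
      Matrix.cons_val_zero, Matrix.cons_val_one, Matrix.cons_val_fin_one]
    simp only [map_neg, map_ofNat, map_one]
    ring
  obtain ⟨h1, h2⟩ := coef1_of_eval h
  refine ⟨h1, ?_⟩
  rw [h2]; simp; norm_num

theorem pi_w1 : (aeval ![1, Polynomial.C 1 * (1 + Polynomial.X)] pi2 : Polynomial ℂ).coeff 0 = 0 ∧
    (aeval ![1, Polynomial.C 1 * (1 + Polynomial.X)] pi2 : Polynomial ℂ).coeff 1 = 6 := by
  have h : (aeval ![1, Polynomial.C 1 * (1 + Polynomial.X)] pi2 : Polynomial ℂ) =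
      Polynomial.X * (-(1 + Polynomial.X) * (2 + Polynomial.X) * (-1 - 2 * Polynomial.X) *
        (3 + 2 * Polynomial.X) * (1 - Polynomial.X)) := by
    unfold pi2
    simp only [map_mul, map_add, map_sub, aeval_X, algHom_C, Polynomial.algebraMap_eq,
      Matrix.cons_val_zero, Matrix.cons_val_one, Matrix.cons_val_fin_one]
    simp only [map_neg, map_ofNat, map_one]
    ring
  obtain ⟨h1, h2⟩ := coef1_of_eval h
  refine ⟨h1, ?_⟩
  rw [h2]; simp; norm_num

theorem pi_u2 : (aeval ![1 + Polynomial.X, Polynomial.C (-1)] pi2 : Polynomial ℂ).coeff 0 = 0 ∧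
    (aeval ![1 + Polynomial.X, Polynomial.C (-1)] pi2 : Polynomial ℂ).coeff 1 = 18 := by
  have h : (aeval ![1 + Polynomial.X, Polynomial.C (-1)] pi2 : Polynomial ℂ) =
      Polynomial.X * (-(1 + Polynomial.X) * (2 + Polynomial.X) * (3 + Polynomial.X) *
        (Polynomial.X - 1) * (3 + 2 * Polynomial.X)) := by
    unfold pi2
    simp only [map_mul, map_add, map_sub, aeval_X, algHom_C, Polynomial.algebraMap_eq,
      Matrix.cons_val_zero, Matrix.cons_val_one, Matrix.cons_val_fin_one]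
    simp only [map_neg, map_ofNat, map_one]
    ring
  obtain ⟨h1, h2⟩ := coef1_of_eval h
  refine ⟨h1, ?_⟩
  rw [h2]; simp; norm_num

theorem pi_w2 : (aeval ![1, Polynomial.C (-1) * (1 + Polynomial.X)] pi2 : Polynomial ℂ).coeff 0 = 0 ∧
    (aeval ![1, Polynomial.C (-1) * (1 + Polynomial.X)] pi2 : Polynomial ℂ).coeff 1 = -18 := by
  have h : (aeval ![1, Polynomial.C (-1) * (1 + Polynomial.X)] pi2 : Polynomial ℂ) =
      Polynomial.X * ((1 + Polynomial.X) * (2 + Polynomial.X) * (3 + 2 * Polynomial.X) *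
        (-1 - 2 * Polynomial.X) * (3 + Polynomial.X)) := by
    unfold pi2
    simp only [map_mul, map_add, map_sub, aeval_X, algHom_C, Polynomial.algebraMap_eq,
      Matrix.cons_val_zero, Matrix.cons_val_one, Matrix.cons_val_fin_one]
    simp only [map_neg, map_ofNat, map_one]
    ring
  obtain ⟨h1, h2⟩ := coef1_of_eval h
  refine ⟨h1, ?_⟩
  rw [h2]; simp; norm_num

/-- jets of a multiple of `pi2` -/
theorem jets_mul (g : Fin 2 → Polynomial ℂ) (L : MvPolynomial (Fin 2) ℂ)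
    (h0 : (aeval g pi2 : Polynomial ℂ).coeff 0 = 0) :
    (aeval g (L * pi2) : Polynomial ℂ).coeff 0 = 0 ∧
    (aeval g (L * pi2) : Polynomial ℂ).coeff 1 =
      (aeval g L : Polynomial ℂ).coeff 0 * (aeval g pi2 : Polynomial ℂ).coeff 1 ∧
    (aeval g (L * pi2) : Polynomial ℂ).coeff 2 =
      (aeval g L : Polynomial ℂ).coeff 0 * (aeval g pi2 : Polynomial ℂ).coeff 2 +
      (aeval g L : Polynomial ℂ).coeff 1 * (aeval g pi2 : Polynomial ℂ).coeff 1 := by
  rw [map_mul]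
  refine ⟨?_, ?_, ?_⟩
  · rw [Polynomial.mul_coeff_zero, h0, mul_zero]
  · rw [cm1, h0]; ring
  · rw [cm2, h0]; ring

theorem lin_jets (p q : ℂ) (f g : Polynomial ℂ) :
    (aeval ![f, g] (C p * X 0 + C q * X 1 : MvPolynomial (Fin 2) ℂ) : Polynomial ℂ) =
      Polynomial.C p * f + Polynomial.C q * g := by
  simp only [map_mul, map_add, aeval_X, algHom_C, Polynomial.algebraMap_eq,
      Matrix.cons_val_zero, Matrix.cons_val_one, Matrix.cons_val_fin_one]

theorem const_jets (p : ℂ) (g : Fin 2 → Polynomial ℂ) :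
    (aeval g (C p : MvPolynomial (Fin 2) ℂ) : Polynomial ℂ) = Polynomial.C p := by
  simp only [algHom_C, Polynomial.algebraMap_eq]

noncomputable def psi (v e : ℂ) : MvPolynomial (Fin 3) ℂ →ₐ[ℂ] Polynomial ℂ :=
  aeval ![1, Polynomial.C v, Polynomial.C e * (1 + Polynomial.X)]
noncomputable def psi0 : MvPolynomial (Fin 3) ℂ →ₐ[ℂ] Polynomial ℂ :=
  aeval ![0, 1, Polynomial.X]
noncomputable def psi1 : MvPolynomial (Fin 3) ℂ →ₐ[ℂ] Polynomial ℂ :=
  aeval ![1, 0, Polynomial.X]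

structure Good5 (A : MvPolynomial (Fin 3) ℂ) : Prop where
  g0 : Good 0 0 A
  g1 : Good 1 0 A
  g2 : Good (-1) 0 A
  g3 : Good 0 1 A
  g4 : Good 0 (-1) A

structure Base (A : MvPolynomial (Fin 3) ℂ) : Prop where
  b11 : (psi 1 1 A).coeff 0 = 0
  b12 : (psi (-1) 1 A).coeff 0 = 0
  b21 : (psi (-1) (-1) A).coeff 0 = 0
  b22 : (psi 1 (-1) A).coeff 0 = 0
  c0 : (psi0 A).coeff 0 = 0
  c1 : (psi1 A).coeff 0 = 0

theorem good5_pts {A : MvPolynomial (Fin 3) ℂ} (h : Good5 A) :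
    eval ![1, 1, 1] A = 0 ∧ eval ![1, -1, 1] A = 0 ∧ eval ![1, -1, -1] A = 0 ∧
    eval ![1, 1, -1] A = 0 ∧ eval ![0, 1, 0] A = 0 ∧ eval ![1, 0, 0] A = 0 := by
  refine ⟨?_, ?_, ?_, ?_, ?_, ?_⟩
  · have := h.g1 2; rw [du_2, dw_2] at this; convert this using 3; norm_num
  · have := h.g1 3; rw [du_3, dw_3] at this; convert this using 3; norm_num
  · have := h.g2 3; rw [du_3, dw_3] at this; convert this using 3; norm_num
  · have := h.g2 2; rw [du_2, dw_2] at this; convert this using 3; norm_num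
  · have := h.g0 0; rw [du_0, dw_0] at this; convert this using 3; norm_num
  · have := h.g0 1; rw [du_1, dw_1] at this; convert this using 3; norm_num

theorem base_of_good {A : MvPolynomial (Fin 3) ℂ} (h : Good5 A) : Base A := by
  obtain ⟨h1, h2, h3, h4, h5, h6⟩ := good5_pts h
  refine ⟨?_, ?_, ?_, ?_, ?_, ?_⟩
  · rw [psi, coef0_Q]; exact h1
  · rw [psi, coef0_Q]; exact h2
  · rw [psi, coef0_Q]; exact h3
  · rw [psi, coef0_Q]; exact h4
  · rw [psi0, Polynomial.coeff_zero_eq_eval_zero, eval_aeval]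
    have e : (fun i => ((![0, 1, Polynomial.X] : Fin 3 → Polynomial ℂ) i).eval (0:ℂ)) =
      ![0, 1, 0] := by funext i; fin_cases i <;> simp
    rw [e]; exact h5
  · rw [psi1, Polynomial.coeff_zero_eq_eval_zero, eval_aeval]
    have e : (fun i => ((![1, 0, Polynomial.X] : Fin 3 → Polynomial ℂ) i).eval (0:ℂ)) =
      ![1, 0, 0] := by funext i; fin_cases i <;> simp
    rw [e]; exact h6

/-- the first jets at the four double points in terms of the restrictions to the planes -/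
theorem psi_coef1 {A : MvPolynomial (Fin 3) ℂ} {s : ℕ} (h : A.IsHomogeneous s) (v e b : ℂ)
    (hb : b * v = e) (h0 : eval ![1, v, e] A = 0) :
    (psi v e A).coeff 1 =
      - (aeval ![1 + Polynomial.X, Polynomial.C v] (res 0 b A) : Polynomial ℂ).coeff 1
      - (aeval ![1, Polynomial.C v * (1 + Polynomial.X)] (res e 0 A) : Polynomial ℂ).coeff 1 := by
  rw [psi, jetQ_homog h v e h0, aeval_res, aeval_res]
  have e1 : (Polynomial.C 0 * (1 + Polynomial.X) + Polynomial.C b * Polynomial.C v : Polynomial ℂ)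
      = Polynomial.C e := by
    rw [← hb, Polynomial.C_mul, Polynomial.C_0]; ring
  have e2 : (Polynomial.C e * 1 + Polynomial.C 0 * (Polynomial.C v * (1 + Polynomial.X)) :
      Polynomial ℂ) = Polynomial.C e := by
    rw [Polynomial.C_0]; ring
  rw [e1, e2]

theorem T1_plane (A : MvPolynomial (Fin 3) ℂ) (a : ℂ) :
    (aeval ![Polynomial.X, 1, Polynomial.C a * Polynomial.X] A : Polynomial ℂ) =
      aeval ![Polynomial.X, 1] (res a 0 A) := by
  rw [aeval_res]
  have : (Polynomial.C a * Polynomial.X + Polynomial.C 0 * 1 : Polynomial ℂ) =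
    Polynomial.C a * Polynomial.X := by rw [Polynomial.C_0]; ring
  rw [this]

theorem T2_plane (A : MvPolynomial (Fin 3) ℂ) (b : ℂ) :
    (aeval ![1, Polynomial.X, Polynomial.C b * Polynomial.X] A : Polynomial ℂ) =
      aeval ![1, Polynomial.X] (res 0 b A) := by
  rw [aeval_res]
  have : (Polynomial.C 0 * 1 + Polynomial.C b * Polynomial.X : Polynomial ℂ) =
    Polynomial.C b * Polynomial.X := by rw [Polynomial.C_0]; ring
  rw [this]

/-- jets of a low-degree element all vanish -/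
theorem jets_low {A : MvPolynomial (Fin 3) ℂ} {s : ℕ} (h : A.IsHomogeneous s) (hs : s < 7)
    (hg : Good5 A) :
    (psi 1 1 A).coeff 1 = 0 ∧ (psi (-1) 1 A).coeff 1 = 0 ∧ (psi (-1) (-1) A).coeff 1 = 0 ∧
    (psi 1 (-1) A).coeff 1 = 0 ∧ (psi0 A).coeff 1 = 0 ∧ (psi0 A).coeff 2 = 0 ∧
    (psi1 A).coeff 1 = 0 ∧ (psi1 A).coeff 2 = 0 := by
  have r0 := res_zero h hs hg.g0
  have r1 := res_zero h hs hg.g1
  have r2 := res_zero h hs hg.g2
  have r3 := res_zero h hs hg.g3
  have r4 := res_zero h hs hg.g4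
  obtain ⟨h1, h2, h3, h4, -, -⟩ := good5_pts hg
  refine ⟨?_, ?_, ?_, ?_, ?_⟩
  · rw [psi_coef1 h 1 1 1 (by norm_num) h1, r3, r1]; simp
  · rw [psi_coef1 h (-1) 1 (-1) (by norm_num) h2, r4, r1]; simp
  · rw [psi_coef1 h (-1) (-1) 1 (by norm_num) h3, r3, r2]; simp
  · rw [psi_coef1 h 1 (-1) (-1) (by norm_num) h4, r4, r2]; simp
  · obtain ⟨e00, e10, e01, e20, e11, e02, k1, k2, k3, k4⟩ := jetT1 A
    obtain ⟨f00, f10, f01, f20, f11, f02, m1, m2, m3, m4⟩ := jetT2 A
    have a0 := k1 0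
    have a1 := k1 1
    have a2 := k1 (-1)
    have c0 := m1 0
    have c1 := m1 1
    have c2 := m1 (-1)
    rw [T1_plane, r0] at a0
    rw [T1_plane, r1] at a1
    rw [T1_plane, r2] at a2
    rw [T2_plane, r0] at c0
    rw [T2_plane, r3] at c1
    rw [T2_plane, r4] at c2
    simp only [map_zero, Polynomial.coeff_zero] at a0 a1 a2 c0 c1 c2
    obtain ⟨-, a01, a02⟩ := a0
    obtain ⟨-, a11, a12⟩ := a1
    obtain ⟨-, a21, a22⟩ := a2
    obtain ⟨-, c01, c02⟩ := c0
    obtain ⟨-, c11, c12⟩ := c1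
    obtain ⟨-, c21, c22⟩ := c2
    rw [psi0, psi1, k3, k4, m3, m4]
    refine ⟨?_, ?_, ?_, ?_⟩
    · linear_combination (-1/2 : ℂ) * a11 + (1/2 : ℂ) * a21
    · linear_combination (-1/2 : ℂ) * a12 - (1/2 : ℂ) * a22 + a02
    · linear_combination (-1/2 : ℂ) * c11 + (1/2 : ℂ) * c21
    · linear_combination (-1/2 : ℂ) * c12 - (1/2 : ℂ) * c22 + c02

/-- jets of an element whose restrictions are `(p x + q y) * pi2` -/
theorem jets_lin {A : MvPolynomial (Fin 3) ℂ} {s : ℕ} (h : A.IsHomogeneous s)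
    (hg : Good5 A) (p0 q0 p1 q1 p2 q2 p3 q3 p4 q4 : ℂ)
    (r0 : res 0 0 A = (C p0 * X 0 + C q0 * X 1) * pi2)
    (r1 : res 1 0 A = (C p1 * X 0 + C q1 * X 1) * pi2)
    (r2 : res (-1) 0 A = (C p2 * X 0 + C q2 * X 1) * pi2)
    (r3 : res 0 1 A = (C p3 * X 0 + C q3 * X 1) * pi2)
    (r4 : res 0 (-1) A = (C p4 * X 0 + C q4 * X 1) * pi2) :
    q1 + q2 = 2 * q0 ∧ p3 + p4 = 2 * p0 ∧
    (psi 1 1 A).coeff 1 = 6 * (p3 + q3) - 6 * (p1 + q1) ∧
    (psi (-1) 1 A).coeff 1 = -18 * (p4 - q4) + 18 * (p1 - q1) ∧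
    (psi (-1) (-1) A).coeff 1 = -18 * (p3 - q3) + 18 * (p2 - q2) ∧
    (psi 1 (-1) A).coeff 1 = 6 * (p4 + q4) - 6 * (p2 + q2) ∧
    (psi0 A).coeff 1 = -2 * (q1 - q2) ∧ (psi0 A).coeff 2 = -2 * (p1 + p2 - 2 * p0) ∧
    (psi1 A).coeff 1 = p3 - p4 ∧ (psi1 A).coeff 2 = q3 + q4 - 2 * q0 := by
  obtain ⟨h1, h2, h3, h4, -, -⟩ := good5_pts hg
  have P1 := cf (-4) 8 (Polynomial.C 5 - Polynomial.C 10 * Polynomial.X - Polynomial.X ^ 2 +
        Polynomial.C 2 * Polynomial.X ^ 3)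
  rw [← pi_path1] at P1
  have P2 := cf 2 (-1) (-Polynomial.C 10 + Polynomial.C 5 * Polynomial.X +
        Polynomial.C 8 * Polynomial.X ^ 2 - Polynomial.C 4 * Polynomial.X ^ 3)
  rw [← pi_path2] at P2
  have J1 : ∀ p q : ℂ,
      (aeval ![Polynomial.X, 1] ((C p * X 0 + C q * X 1) * pi2) : Polynomial ℂ).coeff 0 = 0 ∧
      (aeval ![Polynomial.X, 1] ((C p * X 0 + C q * X 1) * pi2) : Polynomial ℂ).coeff 1 = -4 * q ∧
      (aeval ![Polynomial.X, 1] ((C p * X 0 + C q * X 1) * pi2) : Polynomial ℂ).coeff 2 =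
        -4 * p + 8 * q := by
    intro p q
    obtain ⟨j0, j1, j2⟩ := jets_mul ![Polynomial.X, 1] (C p * X 0 + C q * X 1) P1.1
    rw [j0, j1, j2, lin_jets, P1.2.1, P1.2.2]
    simp
    constructor <;> ring
  have J2 : ∀ p q : ℂ,
      (aeval ![1, Polynomial.X] ((C p * X 0 + C q * X 1) * pi2) : Polynomial ℂ).coeff 0 = 0 ∧
      (aeval ![1, Polynomial.X] ((C p * X 0 + C q * X 1) * pi2) : Polynomial ℂ).coeff 1 = 2 * p ∧
      (aeval ![1, Polynomial.X] ((C p * X 0 + C q * X 1) * pi2) : Polynomial ℂ).coeff 2 =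
        -p + 2 * q := by
    intro p q
    obtain ⟨j0, j1, j2⟩ := jets_mul ![1, Polynomial.X] (C p * X 0 + C q * X 1) P2.1
    rw [j0, j1, j2, lin_jets, P2.2.1, P2.2.2]
    simp
    constructor <;> ring
  have U1 : ∀ p q : ℂ, (aeval ![1 + Polynomial.X, Polynomial.C 1]
      ((C p * X 0 + C q * X 1) * pi2) : Polynomial ℂ).coeff 1 = -6 * (p + q) := by
    intro p q
    rw [(jets_mul _ (C p * X 0 + C q * X 1) pi_u1.1).2.1, lin_jets, pi_u1.2]
    simp; ring
  have U2 : ∀ p q : ℂ, (aeval ![1 + Polynomial.X, Polynomial.C (-1)]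
      ((C p * X 0 + C q * X 1) * pi2) : Polynomial ℂ).coeff 1 = 18 * (p - q) := by
    intro p q
    rw [(jets_mul _ (C p * X 0 + C q * X 1) pi_u2.1).2.1, lin_jets, pi_u2.2]
    simp; ring
  have W1 : ∀ p q : ℂ, (aeval ![1, Polynomial.C 1 * (1 + Polynomial.X)]
      ((C p * X 0 + C q * X 1) * pi2) : Polynomial ℂ).coeff 1 = 6 * (p + q) := by
    intro p q
    rw [(jets_mul _ (C p * X 0 + C q * X 1) pi_w1.1).2.1, lin_jets, pi_w1.2]
    simp; ring
  have W2 : ∀ p q : ℂ, (aeval ![1, Polynomial.C (-1) * (1 + Polynomial.X)]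
      ((C p * X 0 + C q * X 1) * pi2) : Polynomial ℂ).coeff 1 = -18 * (p - q) := by
    intro p q
    rw [(jets_mul _ (C p * X 0 + C q * X 1) pi_w2.1).2.1, lin_jets, pi_w2.2]
    simp; ring
  obtain ⟨e00, e10, e01, e20, e11, e02, k1, k2, k3, k4⟩ := jetT1 A
  obtain ⟨f00, f10, f01, f20, f11, f02, m1, m2, m3, m4⟩ := jetT2 A
  have a0 := k1 0
  have a1 := k1 1
  have a2 := k1 (-1)
  have c0 := m1 0
  have c1 := m1 1
  have c2 := m1 (-1)
  rw [T1_plane, r0] at a0
  rw [T1_plane, r1] at a1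
  rw [T1_plane, r2] at a2
  rw [T2_plane, r0] at c0
  rw [T2_plane, r3] at c1
  rw [T2_plane, r4] at c2
  rw [(J1 p0 q0).1, (J1 p0 q0).2.1, (J1 p0 q0).2.2] at a0
  rw [(J1 p1 q1).1, (J1 p1 q1).2.1, (J1 p1 q1).2.2] at a1
  rw [(J1 p2 q2).1, (J1 p2 q2).2.1, (J1 p2 q2).2.2] at a2
  rw [(J2 p0 q0).1, (J2 p0 q0).2.1, (J2 p0 q0).2.2] at c0
  rw [(J2 p3 q3).1, (J2 p3 q3).2.1, (J2 p3 q3).2.2] at c1
  rw [(J2 p4 q4).1, (J2 p4 q4).2.1, (J2 p4 q4).2.2] at c2
  obtain ⟨-, a01, a02⟩ := a0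
  obtain ⟨-, a11, a12⟩ := a1
  obtain ⟨-, a21, a22⟩ := a2
  obtain ⟨-, c01, c02⟩ := c0
  obtain ⟨-, c11, c12⟩ := c1
  obtain ⟨-, c21, c22⟩ := c2
  have hq : q1 + q2 = 2 * q0 := by
    linear_combination (-1/4 : ℂ) * a11 - (1/4 : ℂ) * a21 + (1/2 : ℂ) * a01
  have hp : p3 + p4 = 2 * p0 := by
    linear_combination (1/2 : ℂ) * c11 + (1/2 : ℂ) * c21 - c01
  refine ⟨hq, hp, ?_, ?_, ?_, ?_, ?_, ?_, ?_, ?_⟩
  · rw [psi_coef1 h 1 1 1 (by norm_num) h1, r3, r1, U1, W1]; ring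
  · rw [psi_coef1 h (-1) 1 (-1) (by norm_num) h2, r4, r1, U2, W2]; ring
  · rw [psi_coef1 h (-1) (-1) 1 (by norm_num) h3, r3, r2, U2, W2]; ring
  · rw [psi_coef1 h 1 (-1) (-1) (by norm_num) h4, r4, r2, U1, W1]; ring
  · rw [psi0, k3]; linear_combination (-1/2 : ℂ) * a11 + (1/2 : ℂ) * a21
  · rw [psi0, k4]
    linear_combination (-1/2 : ℂ) * a12 - (1/2 : ℂ) * a22 + a02 + (4 : ℂ) * hq
  · rw [psi1, m3]; linear_combination (-1/2 : ℂ) * c11 + (1/2 : ℂ) * c21
  · rw [psi1, m4]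
    linear_combination (-1/2 : ℂ) * c12 - (1/2 : ℂ) * c22 + c02 - (1/2 : ℂ) * hp

/-- jets of an element whose restrictions are `α * pi2` -/
theorem jets_const {A : MvPolynomial (Fin 3) ℂ} {s : ℕ} (h : A.IsHomogeneous s)
    (hg : Good5 A) (p0 p1 p2 p3 p4 : ℂ)
    (r0 : res 0 0 A = C p0 * pi2) (r1 : res 1 0 A = C p1 * pi2)
    (r2 : res (-1) 0 A = C p2 * pi2) (r3 : res 0 1 A = C p3 * pi2)
    (r4 : res 0 (-1) A = C p4 * pi2) :
    p1 + p2 = 2 * p0 ∧ p3 + p4 = 2 * p0 ∧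
    (psi 1 1 A).coeff 1 = 6 * p3 - 6 * p1 ∧
    (psi (-1) 1 A).coeff 1 = -18 * p4 + 18 * p1 ∧
    (psi (-1) (-1) A).coeff 1 = -18 * p3 + 18 * p2 ∧
    (psi 1 (-1) A).coeff 1 = 6 * p4 - 6 * p2 ∧
    (psi0 A).coeff 1 = -2 * (p1 - p2) ∧ (psi0 A).coeff 2 = 0 ∧
    (psi1 A).coeff 1 = p3 - p4 ∧ (psi1 A).coeff 2 = 0 := by
  obtain ⟨h1, h2, h3, h4, -, -⟩ := good5_pts hg
  have P1 := cf (-4) 8 (Polynomial.C 5 - Polynomial.C 10 * Polynomial.X - Polynomial.X ^ 2 +
        Polynomial.C 2 * Polynomial.X ^ 3)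
  rw [← pi_path1] at P1
  have P2 := cf 2 (-1) (-Polynomial.C 10 + Polynomial.C 5 * Polynomial.X +
        Polynomial.C 8 * Polynomial.X ^ 2 - Polynomial.C 4 * Polynomial.X ^ 3)
  rw [← pi_path2] at P2
  have J1 : ∀ p : ℂ,
      (aeval ![Polynomial.X, 1] (C p * pi2) : Polynomial ℂ).coeff 0 = 0 ∧
      (aeval ![Polynomial.X, 1] (C p * pi2) : Polynomial ℂ).coeff 1 = -4 * p ∧
      (aeval ![Polynomial.X, 1] (C p * pi2) : Polynomial ℂ).coeff 2 = 8 * p := by
    intro p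
    obtain ⟨j0, j1, j2⟩ := jets_mul ![Polynomial.X, 1] (C p) P1.1
    rw [j0, j1, j2, const_jets, P1.2.1, P1.2.2]
    simp
    constructor <;> ring
  have J2 : ∀ p : ℂ,
      (aeval ![1, Polynomial.X] (C p * pi2) : Polynomial ℂ).coeff 0 = 0 ∧
      (aeval ![1, Polynomial.X] (C p * pi2) : Polynomial ℂ).coeff 1 = 2 * p ∧
      (aeval ![1, Polynomial.X] (C p * pi2) : Polynomial ℂ).coeff 2 = -p := by
    intro p
    obtain ⟨j0, j1, j2⟩ := jets_mul ![1, Polynomial.X] (C p) P2.1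
    rw [j0, j1, j2, const_jets, P2.2.1, P2.2.2]
    simp
    ring
  have U1 : ∀ p : ℂ, (aeval ![1 + Polynomial.X, Polynomial.C 1]
      (C p * pi2) : Polynomial ℂ).coeff 1 = -6 * p := by
    intro p
    rw [(jets_mul _ (C p) pi_u1.1).2.1, const_jets, pi_u1.2]
    simp; ring
  have U2 : ∀ p : ℂ, (aeval ![1 + Polynomial.X, Polynomial.C (-1)]
      (C p * pi2) : Polynomial ℂ).coeff 1 = 18 * p := by
    intro p
    rw [(jets_mul _ (C p) pi_u2.1).2.1, const_jets, pi_u2.2]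
    simp; ring
  have W1 : ∀ p : ℂ, (aeval ![1, Polynomial.C 1 * (1 + Polynomial.X)]
      (C p * pi2) : Polynomial ℂ).coeff 1 = 6 * p := by
    intro p
    rw [(jets_mul _ (C p) pi_w1.1).2.1, const_jets, pi_w1.2]
    simp; ring
  have W2 : ∀ p : ℂ, (aeval ![1, Polynomial.C (-1) * (1 + Polynomial.X)]
      (C p * pi2) : Polynomial ℂ).coeff 1 = -18 * p := by
    intro p
    rw [(jets_mul _ (C p) pi_w2.1).2.1, const_jets, pi_w2.2]
    simp; ring
  obtain ⟨e00, e10, e01, e20, e11, e02, k1, k2, k3, k4⟩ := jetT1 A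
  obtain ⟨f00, f10, f01, f20, f11, f02, m1, m2, m3, m4⟩ := jetT2 A
  have a0 := k1 0
  have a1 := k1 1
  have a2 := k1 (-1)
  have c0 := m1 0
  have c1 := m1 1
  have c2 := m1 (-1)
  rw [T1_plane, r0] at a0
  rw [T1_plane, r1] at a1
  rw [T1_plane, r2] at a2
  rw [T2_plane, r0] at c0
  rw [T2_plane, r3] at c1
  rw [T2_plane, r4] at c2
  rw [(J1 p0).1, (J1 p0).2.1, (J1 p0).2.2] at a0
  rw [(J1 p1).1, (J1 p1).2.1, (J1 p1).2.2] at a1
  rw [(J1 p2).1, (J1 p2).2.1, (J1 p2).2.2] at a2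
  rw [(J2 p0).1, (J2 p0).2.1, (J2 p0).2.2] at c0
  rw [(J2 p3).1, (J2 p3).2.1, (J2 p3).2.2] at c1
  rw [(J2 p4).1, (J2 p4).2.1, (J2 p4).2.2] at c2
  obtain ⟨-, a01, a02⟩ := a0
  obtain ⟨-, a11, a12⟩ := a1
  obtain ⟨-, a21, a22⟩ := a2
  obtain ⟨-, c01, c02⟩ := c0
  obtain ⟨-, c11, c12⟩ := c1
  obtain ⟨-, c21, c22⟩ := c2
  have hq : p1 + p2 = 2 * p0 := by
    linear_combination (-1/4 : ℂ) * a11 - (1/4 : ℂ) * a21 + (1/2 : ℂ) * a01
  have hp : p3 + p4 = 2 * p0 := by
    linear_combination (1/2 : ℂ) * c11 + (1/2 : ℂ) * c21 - c01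
  refine ⟨hq, hp, ?_, ?_, ?_, ?_, ?_, ?_, ?_, ?_⟩
  · rw [psi_coef1 h 1 1 1 (by norm_num) h1, r3, r1, U1, W1]; ring
  · rw [psi_coef1 h (-1) 1 (-1) (by norm_num) h2, r4, r1, U2, W2]; ring
  · rw [psi_coef1 h (-1) (-1) 1 (by norm_num) h3, r3, r2, U2, W2]; ring
  · rw [psi_coef1 h 1 (-1) (-1) (by norm_num) h4, r4, r2, U1, W1]; ring
  · rw [psi0, k3]; linear_combination (-1/2 : ℂ) * a11 + (1/2 : ℂ) * a21
  · rw [psi0, k4]
    linear_combination (-1/2 : ℂ) * a12 - (1/2 : ℂ) * a22 + a02 + (4 : ℂ) * hq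
  · rw [psi1, m3]; linear_combination (-1/2 : ℂ) * c11 + (1/2 : ℂ) * c21
  · rw [psi1, m4]
    linear_combination (-1/2 : ℂ) * c12 - (1/2 : ℂ) * c22 + c02 - (1/2 : ℂ) * hp

/-- the linear functional -/
noncomputable def Lam : MvPolynomial (Fin 3) ℂ →ₗ[ℂ] ℂ :=
  (1/36 : ℂ) • (Polynomial.lcoeff ℂ 2 ∘ₗ (psi 1 1).toLinearMap)
  + (1/324 : ℂ) • (Polynomial.lcoeff ℂ 2 ∘ₗ (psi (-1) 1).toLinearMap)
  - (1/324 : ℂ) • (Polynomial.lcoeff ℂ 2 ∘ₗ (psi (-1) (-1)).toLinearMap)
  - (1/36 : ℂ) • (Polynomial.lcoeff ℂ 2 ∘ₗ (psi 1 (-1)).toLinearMap)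
  - (1/4 : ℂ) • (Polynomial.lcoeff ℂ 3 ∘ₗ psi0.toLinearMap)
  - (Polynomial.lcoeff ℂ 3 ∘ₗ psi1.toLinearMap)

theorem Lam_apply (A : MvPolynomial (Fin 3) ℂ) : Lam A =
    1/36 * (psi 1 1 A).coeff 2 + 1/324 * (psi (-1) 1 A).coeff 2
    - 1/324 * (psi (-1) (-1) A).coeff 2 - 1/36 * (psi 1 (-1) A).coeff 2
    - 1/4 * (psi0 A).coeff 3 - (psi1 A).coeff 3 := by
  simp [Lam]

theorem Lam_mul {A B : MvPolynomial (Fin 3) ℂ} (hA : Base A) (hB : Base B) : Lam (A * B) =
    1/36 * ((psi 1 1 A).coeff 1 * (psi 1 1 B).coeff 1)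
    + 1/324 * ((psi (-1) 1 A).coeff 1 * (psi (-1) 1 B).coeff 1)
    - 1/324 * ((psi (-1) (-1) A).coeff 1 * (psi (-1) (-1) B).coeff 1)
    - 1/36 * ((psi 1 (-1) A).coeff 1 * (psi 1 (-1) B).coeff 1)
    - 1/4 * ((psi0 A).coeff 1 * (psi0 B).coeff 2 + (psi0 A).coeff 2 * (psi0 B).coeff 1)
    - ((psi1 A).coeff 1 * (psi1 B).coeff 2 + (psi1 A).coeff 2 * (psi1 B).coeff 1) := by
  rw [Lam_apply]
  simp only [map_mul, cm2, cm3]
  rw [hA.b11, hA.b12, hA.b21, hA.b22, hA.c0, hA.c1, hB.b11, hB.b12, hB.b21, hB.b22, hB.c0, hB.c1]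
  ring

theorem Lam_low {A B : MvPolynomial (Fin 3) ℂ} {s s' : ℕ} (hA : A.IsHomogeneous s)
    (hB : B.IsHomogeneous s') (gA : Good5 A) (gB : Good5 B) (hs : s + s' = 15) (h7 : s ≤ 7) :
    Lam (A * B) = 0 := by
  rw [Lam_mul (base_of_good gA) (base_of_good gB)]
  rcases Nat.lt_or_ge s 7 with h | h
  · obtain ⟨a1, a2, a3, a4, a5, a6, a7, a8⟩ := jets_low hA h gA
    rw [a1, a2, a3, a4, a5, a6, a7, a8]; ring
  · have hs7 : s = 7 := le_antisymm h7 h
    subst hs7
    have hs8 : s' = 8 := by omega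
    subst hs8
    obtain ⟨α0, r0⟩ := res_seven hA gA.g0
    obtain ⟨α1, r1⟩ := res_seven hA gA.g1
    obtain ⟨α2, r2⟩ := res_seven hA gA.g2
    obtain ⟨α3, r3⟩ := res_seven hA gA.g3
    obtain ⟨α4, r4⟩ := res_seven hA gA.g4
    obtain ⟨p0, q0, u0⟩ := res_eight hB gB.g0
    obtain ⟨p1, q1, u1⟩ := res_eight hB gB.g1
    obtain ⟨p2, q2, u2⟩ := res_eight hB gB.g2
    obtain ⟨p3, q3, u3⟩ := res_eight hB gB.g3
    obtain ⟨p4, q4, u4⟩ := res_eight hB gB.g4
    obtain ⟨c1, c2, a1, a2, a3, a4, a5, a6, a7, a8⟩ :=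
      jets_const hA gA α0 α1 α2 α3 α4 r0 r1 r2 r3 r4
    obtain ⟨d1, d2, b1, b2, b3, b4, b5, b6, b7, b8⟩ :=
      jets_lin hB gB p0 q0 p1 q1 p2 q2 p3 q3 p4 q4 u0 u1 u2 u3 u4
    rw [a1, a2, a3, a4, a5, a6, a7, a8, b1, b2, b3, b4, b5, b6, b7, b8]
    have e1 : α2 = 2 * α0 - α1 := by linear_combination c1
    have e2 : α4 = 2 * α0 - α3 := by linear_combination c2
    have e3 : q2 = 2 * q0 - q1 := by linear_combination d1
    have e4 : p4 = 2 * p0 - p3 := by linear_combination d2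
    subst e1 e2 e3 e4
    ring

theorem Lam_hom {A B : MvPolynomial (Fin 3) ℂ} {s s' : ℕ} (hA : A.IsHomogeneous s)
    (hB : B.IsHomogeneous s') (gA : Good5 A) (gB : Good5 B) (hs : s + s' = 15) :
    Lam (A * B) = 0 := by
  rcases Nat.lt_or_ge s 8 with h | h
  · exact Lam_low hA hB gA gB hs (by omega)
  · rw [mul_comm]
    exact Lam_low hB hA gB gA (by omega) (by omega)

/-- components vanish where the scaled polynomial vanishes -/
theorem coeff_scale (v : Fin 3 → ℂ) (A : MvPolynomial (Fin 3) ℂ) (i : ℕ) :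
    (aeval (fun k => Polynomial.C (v k) * Polynomial.X) A : Polynomial ℂ).coeff i =
      eval v (homogeneousComponent i A) := by
  induction A using MvPolynomial.induction_on' with
  | monomial d c =>
    have h1 : (aeval (fun k => Polynomial.C (v k) * Polynomial.X) (monomial d c) : Polynomial ℂ) =
        Polynomial.C (c * ∏ k, v k ^ d k) * Polynomial.X ^ (∑ k, d k) := by
      rw [aeval_monomial, Finsupp.prod_fintype _ _ (by intro i; simp)]
      simp_rw [mul_pow]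
      rw [Finset.prod_mul_distrib, Finset.prod_pow_eq_pow_sum]
      rw [Polynomial.C_mul, map_prod]
      simp only [Polynomial.C_pow, Polynomial.algebraMap_eq]
      ring
    rw [h1, Polynomial.coeff_C_mul, Polynomial.coeff_X_pow]
    have hd : d.degree = ∑ k, d k := by
      rw [Finsupp.degree_eq_sum]
    by_cases hi : i = ∑ k, d k
    · rw [if_pos hi, mul_one]
      have hm : (monomial d c : MvPolynomial (Fin 3) ℂ).IsHomogeneous i :=
        isHomogeneous_monomial c (by rw [hd, hi])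
      rw [homogeneousComponent_eq_self hm, eval_monomial, Finsupp.prod_fintype _ _ (by intro i; simp)]
    · rw [if_neg hi, mul_zero]
      have hm : (monomial d c : MvPolynomial (Fin 3) ℂ) ∈ homogeneousSubmodule (Fin 3) ℂ
          (∑ k, d k) := isHomogeneous_monomial c hd
      rw [homogeneousComponent_of_mem hm, if_neg hi, map_zero]
  | add p q hp hq =>
    rw [map_add, Polynomial.coeff_add, map_add, map_add, hp, hq]

theorem comp_vanish {v : Fin 3 → ℂ} {A : MvPolynomial (Fin 3) ℂ}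
    (h : ∀ t : ℂ, eval (fun k => v k * t) A = 0) (i : ℕ) :
    eval v (homogeneousComponent i A) = 0 := by
  rw [← coeff_scale]
  have : (aeval (fun k => Polynomial.C (v k) * Polynomial.X) A : Polynomial ℂ) = 0 := by
    apply Polynomial.funext
    intro t
    rw [eval_aeval]
    simp only [Polynomial.eval_mul, Polynomial.eval_C, Polynomial.eval_X, Polynomial.eval_zero]
    exact h t
  rw [this, Polynomial.coeff_zero]

/-- `A` vanishes on the lines of all the special points -/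
def GoodL (A : MvPolynomial (Fin 3) ℂ) : Prop :=
  ∀ i : ℕ, Good5 (homogeneousComponent i A)

theorem Lam_comp {A B : MvPolynomial (Fin 3) ℂ} (hA : GoodL A) (hB : GoodL B) :
    Lam (homogeneousComponent 15 (A * B)) = 0 := by
  have e : A * B = ∑ i ∈ Finset.range (A.totalDegree + 1), ∑ j ∈ Finset.range (B.totalDegree + 1),
      homogeneousComponent i A * homogeneousComponent j B := by
    rw [← Finset.sum_mul_sum, sum_homogeneousComponent, sum_homogeneousComponent]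
  rw [e, map_sum, map_sum]
  refine Finset.sum_eq_zero fun i _ => ?_
  rw [map_sum, map_sum]
  refine Finset.sum_eq_zero fun j _ => ?_
  have hm : homogeneousComponent i A * homogeneousComponent j B ∈
      homogeneousSubmodule (Fin 3) ℂ (i + j) :=
    (homogeneousComponent_isHomogeneous i A).mul (homogeneousComponent_isHomogeneous j B)
  rw [homogeneousComponent_of_mem hm]
  by_cases h : 15 = i + j
  · rw [if_pos h]
    exact Lam_hom (homogeneousComponent_isHomogeneous i A) (homogeneousComponent_isHomogeneous j B)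
      (hA i) (hB j) h.symm
  · rw [if_neg h, map_zero]

noncomputable def Mp : MvPolynomial (Fin 3) ℂ :=
  X 2 * (X 2 - X 0) * (X 2 + X 0) * (X 2 - X 1) * (X 2 + X 1)
noncomputable def ep : MvPolynomial (Fin 3) ℂ :=
  (X 0 - C 2 * X 1) * (X 0 + C 2 * X 1) * (C 2 * X 0 - X 1)
noncomputable def bp : MvPolynomial (Fin 3) ℂ :=
  (X 0 ^ 2 - X 1 ^ 2) ^ 2 + X 2 ^ 2 * (X 0 ^ 2 + X 1 ^ 2) - C 2 * X 2 ^ 4
noncomputable def ap : MvPolynomial (Fin 3) ℂ := X 2 * (C 6 * X 0 + C 12 * X 1)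
noncomputable def fp : MvPolynomial (Fin 3) ℂ := ap * Mp + ep * bp
noncomputable def Fp : MvPolynomial (Fin 3) ℂ := Mp * (ep * fp)

theorem hX (i : Fin 3) : (X i : MvPolynomial (Fin 3) ℂ).IsHomogeneous 1 := isHomogeneous_X ℂ i
theorem hCX (c : ℂ) (i : Fin 3) : (C c * X i : MvPolynomial (Fin 3) ℂ).IsHomogeneous 1 :=
  isHomogeneous_C_mul_X c i

theorem Mp_hom : Mp.IsHomogeneous 5 :=
  ((((hX 2).mul ((hX 2).sub (hX 0))).mul ((hX 2).add (hX 0))).mul ((hX 2).sub (hX 1))).mul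
    ((hX 2).add (hX 1))

theorem ep_hom : ep.IsHomogeneous 3 :=
  (((hX 0).sub (hCX 2 1)).mul ((hX 0).add (hCX 2 1))).mul ((hCX 2 0).sub (hX 1))

theorem bp_hom : bp.IsHomogeneous 4 :=
  ((((((hX 0).pow 2).sub ((hX 1).pow 2)).pow 2)).add
    (((hX 2).pow 2).mul (((hX 0).pow 2).add ((hX 1).pow 2)))).sub (((hX 2).pow 4).C_mul 2)

theorem ap_hom : ap.IsHomogeneous 2 := (hX 2).mul ((hCX 6 0).add (hCX 12 1))

theorem fp_hom : fp.IsHomogeneous 7 := (ap_hom.mul Mp_hom).add (ep_hom.mul bp_hom)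

theorem Fp_hom : Fp.IsHomogeneous 15 := Mp_hom.mul (ep_hom.mul fp_hom)

theorem Fp_comp : homogeneousComponent 15 Fp = Fp := homogeneousComponent_eq_self Fp_hom

/-- `psi v e F` has no terms of degree `≤ 2`. -/
theorem psi_F_aux (v e : ℂ) (G : Polynomial ℂ) (h1 : psi v e Mp = Polynomial.X ^ 2 * G)
    (h2 : eval ![1, v, e] fp = 0) : (psi v e Fp).coeff 2 = 0 := by
  unfold Fp
  rw [map_mul, h1, map_mul]
  have h3 : (psi v e fp).coeff 0 = 0 := by rw [psi, coef0_Q]; exact h2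
  rw [mul_assoc, Polynomial.coeff_X_pow_mul']
  simp only [le_refl, if_true, Nat.sub_self]
  rw [Polynomial.mul_coeff_zero, Polynomial.mul_coeff_zero, h3]; ring

theorem psi_F1 : (psi 1 1 Fp).coeff 2 = 0 := by
  refine psi_F_aux 1 1 ((1 + Polynomial.X) * (2 + Polynomial.X) * (2 + Polynomial.X)) ?_ ?_
  · unfold Mp psi
    simp only [map_mul, map_add, map_sub, aeval_X, Matrix.cons_val_zero, Matrix.cons_val_one,
      Matrix.cons_val]
    simp only [map_one]; ring
  · simp [fp, ap, Mp, ep, bp]; norm_num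

theorem psi_F2 : (psi (-1) 1 Fp).coeff 2 = 0 := by
  refine psi_F_aux (-1) 1 ((1 + Polynomial.X) * (2 + Polynomial.X) * (2 + Polynomial.X)) ?_ ?_
  · unfold Mp psi
    simp only [map_mul, map_add, map_sub, aeval_X, Matrix.cons_val_zero, Matrix.cons_val_one,
      Matrix.cons_val]
    simp only [map_one, map_neg]; ring
  · simp [fp, ap, Mp, ep, bp]; norm_num

theorem psi_F3 : (psi (-1) (-1) Fp).coeff 2 = 0 := by
  refine psi_F_aux (-1) (-1) (-(1 + Polynomial.X) * (2 + Polynomial.X) * (2 + Polynomial.X)) ?_ ?_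
  · unfold Mp psi
    simp only [map_mul, map_add, map_sub, aeval_X, Matrix.cons_val_zero, Matrix.cons_val_one,
      Matrix.cons_val]
    simp only [map_one, map_neg]; ring
  · simp [fp, ap, Mp, ep, bp]; norm_num

theorem psi_F4 : (psi 1 (-1) Fp).coeff 2 = 0 := by
  refine psi_F_aux 1 (-1) (-(1 + Polynomial.X) * (2 + Polynomial.X) * (2 + Polynomial.X)) ?_ ?_
  · unfold Mp psi
    simp only [map_mul, map_add, map_sub, aeval_X, Matrix.cons_val_zero, Matrix.cons_val_one,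
      Matrix.cons_val]
    simp only [map_one, map_neg]; ring
  · simp [fp, ap, Mp, ep, bp]; norm_num

theorem psi0_F : (psi0 Fp).coeff 3 = -16 := by
  have h : psi0 Mp = Polynomial.X ^ 3 * ((Polynomial.X - 1) * (Polynomial.X + 1)) := by
    unfold Mp psi0
    simp only [map_mul, map_add, map_sub, aeval_X, Matrix.cons_val_zero, Matrix.cons_val_one,
      Matrix.cons_val]
    ring
  unfold Fp
  rw [map_mul, h, mul_assoc, Polynomial.coeff_X_pow_mul']
  simp only [le_refl, if_true, Nat.sub_self]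
  rw [Polynomial.coeff_zero_eq_eval_zero, Polynomial.eval_mul, psi0, eval_aeval]
  have e : (fun i => ((![0, 1, Polynomial.X] : Fin 3 → Polynomial ℂ) i).eval (0:ℂ)) =
      ![0, 1, 0] := by funext i; fin_cases i <;> simp
  rw [e]
  simp [fp, ap, Mp, ep, bp]; norm_num

theorem psi1_F : (psi1 Fp).coeff 3 = -4 := by
  have h : psi1 Mp = Polynomial.X ^ 3 * ((Polynomial.X - 1) * (Polynomial.X + 1)) := by
    unfold Mp psi1
    simp only [map_mul, map_add, map_sub, aeval_X, Matrix.cons_val_zero, Matrix.cons_val_one,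
      Matrix.cons_val]
    ring
  unfold Fp
  rw [map_mul, h, mul_assoc, Polynomial.coeff_X_pow_mul']
  simp only [le_refl, if_true, Nat.sub_self]
  rw [Polynomial.coeff_zero_eq_eval_zero, Polynomial.eval_mul, psi1, eval_aeval]
  have e : (fun i => ((![1, 0, Polynomial.X] : Fin 3 → Polynomial ℂ) i).eval (0:ℂ)) =
      ![1, 0, 0] := by funext i; fin_cases i <;> simp
  rw [e]
  simp [fp, ap, Mp, ep, bp]; norm_num

theorem Lam_F : Lam (homogeneousComponent 15 Fp) = 8 := by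
  rw [Fp_comp, Lam_apply, psi_F1, psi_F2, psi_F3, psi_F4, psi0_F, psi1_F]; norm_num

theorem mem_idealOf {ℓ : ℕ} {X : Submodule ℂ (Fin ℓ → ℂ)} {f : MvPolynomial (Fin ℓ) ℂ} :
    f ∈ idealOf X ↔ ∀ v ∈ X, eval v f = 0 := Iff.rfl

variable {Z : Submodule ℂ (Fin 3 → ℂ)}

theorem mem3 {R : Type*} [CommRing R] {I : Ideal R} {a b c : R} (ha : a ∈ I) (hb : b ∈ I)
    (hc : c ∈ I) (d : R) : a * b * c * d ∈ I ^ 3 := by
  refine Ideal.mul_mem_right _ _ ?_
  have : I ^ 3 = I * I * I := by ring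
  rw [this]
  exact Ideal.mul_mem_mul (Ideal.mul_mem_mul ha hb) hc

theorem mem12 {R : Type*} [CommRing R] {I : Ideal R} {a b c b' c' : R} (ha : a ∈ I) (hb : b ∈ I)
    (hc : c ∈ I) (hb' : b' ∈ I) (hc' : c' ∈ I) (d : R) : a * (b * c + b' * c') * d ∈ I ^ 3 := by
  refine Ideal.mul_mem_right _ _ ?_
  have : I ^ 3 = I * (I * I) := by ring
  rw [this]
  exact Ideal.mul_mem_mul ha (Ideal.add_mem _ (Ideal.mul_mem_mul hb hc) (Ideal.mul_mem_mul hb' hc'))

theorem tP (h : ∀ v ∈ Z, v 0 = 0 ∧ v 1 = 0) : Fp ∈ idealOf Z ^ 3 := by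
  have e : Fp = (X 0 - C 2 * X 1) * (X 0 + C 2 * X 1) * (C 2 * X 0 - X 1) * (Mp * fp) := by
    unfold Fp ep; ring
  rw [e]
  refine mem3 ?_ ?_ ?_ _ <;> intro v hv <;> obtain ⟨h0, h1⟩ := h v hv <;> simp [h0, h1]

theorem tT1 (h : ∀ v ∈ Z, v 0 = 0 ∧ v 2 = 0) : Fp ∈ idealOf Z ^ 3 := by
  have e : Fp = X 2 * (X 2 - X 0) * (X 2 + X 0) * ((X 2 - X 1) * (X 2 + X 1) * (ep * fp)) := by
    unfold Fp Mp; ring
  rw [e]
  refine mem3 ?_ ?_ ?_ _ <;> intro v hv <;> obtain ⟨h0, h1⟩ := h v hv <;> simp [h0, h1]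

theorem tT2 (h : ∀ v ∈ Z, v 1 = 0 ∧ v 2 = 0) : Fp ∈ idealOf Z ^ 3 := by
  have e : Fp = X 2 * (X 2 - X 1) * (X 2 + X 1) * ((X 2 - X 0) * (X 2 + X 0) * (ep * fp)) := by
    unfold Fp Mp; ring
  rw [e]
  refine mem3 ?_ ?_ ?_ _ <;> intro v hv <;> obtain ⟨h0, h1⟩ := h v hv <;> simp [h0, h1]

theorem tE (l m : MvPolynomial (Fin 3) ℂ) (hl : l ∣ ep) (hm : m ∣ Mp)
    (hl' : ∀ v ∈ Z, eval v l = 0) (hm' : ∀ v ∈ Z, eval v m = 0) : Fp ∈ idealOf Z ^ 3 := by
  obtain ⟨l1, hl1⟩ := hl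
  obtain ⟨m1, hm1⟩ := hm
  have e : Fp = m * l * fp * (m1 * l1) := by
    have : Fp = Mp * (ep * fp) := rfl
    rw [this]
    conv_lhs => rw [hm1, hl1]
    ring
  rw [e]
  refine mem3 (I := idealOf Z) hm' hl' ?_ _
  intro v hv
  have e1 : eval v Mp = 0 := by rw [hm1, map_mul, hm' v hv, zero_mul]
  have e2 : eval v ep = 0 := by rw [hl1, map_mul, hl' v hv, zero_mul]
  unfold fp
  rw [map_add, map_mul, map_mul, e1, e2]; ring

theorem tQ (m m' : MvPolynomial (Fin 3) ℂ) (hm : m * m' ∣ Mp)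
    (h1 : ∀ v ∈ Z, eval v m = 0) (h2 : ∀ v ∈ Z, eval v m' = 0)
    (h3 : ∀ v ∈ Z, eval v bp = 0) : Fp ∈ idealOf Z ^ 3 := by
  obtain ⟨m1, hm1⟩ := hm
  have e : Fp = m * m' * fp * (m1 * ep) := by
    have : Fp = Mp * (ep * fp) := rfl
    rw [this]
    conv_lhs => rw [hm1]
    ring
  rw [e]
  refine mem3 (I := idealOf Z) h1 h2 ?_ _
  intro v hv
  have e1 : eval v Mp = 0 := by rw [hm1, map_mul, map_mul, h1 v hv]; ring
  unfold fp
  rw [map_add, map_mul, map_mul, e1, h3 v hv]; ring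

theorem tR (m A1 B1 A2 B2 : MvPolynomial (Fin 3) ℂ) (hm : m ∣ Mp)
    (hf : fp = A1 * B1 + A2 * B2)
    (h1 : ∀ v ∈ Z, eval v m = 0) (h2 : ∀ v ∈ Z, eval v A1 = 0) (h3 : ∀ v ∈ Z, eval v B1 = 0)
    (h4 : ∀ v ∈ Z, eval v A2 = 0) (h5 : ∀ v ∈ Z, eval v B2 = 0) : Fp ∈ idealOf Z ^ 3 := by
  obtain ⟨m1, hm1⟩ := hm
  have e : Fp = m * (A1 * B1 + A2 * B2) * (m1 * ep) := by
    have : Fp = Mp * (ep * fp) := rfl
    rw [this, ← hf]
    conv_lhs => rw [hm1]
    ring
  rw [e]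
  exact mem12 (I := idealOf Z) h1 h2 h3 h4 h5 _

theorem tQ1 (h : ∀ v ∈ Z, v 2 = v 0 ∧ v 2 = v 1) : Fp ∈ idealOf Z ^ 3 := by
  refine tQ (X 2 - X 0) (X 2 - X 1) ⟨X 2 * (X 2 + X 0) * (X 2 + X 1), ?_⟩ ?_ ?_ ?_
  · unfold Mp; ring
  · intro v hv; obtain ⟨h0, h1⟩ := h v hv; simp only [map_sub, eval_X]; linear_combination h0
  · intro v hv; obtain ⟨h0, h1⟩ := h v hv; simp only [map_sub, eval_X]; linear_combination h1
  · intro v hv; obtain ⟨h0, h1⟩ := h v hv
    simp only [bp, map_sub, map_add, map_mul, map_pow, eval_X, eval_C]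
    rw [← h0, ← h1]; ring

theorem tQ2 (h : ∀ v ∈ Z, v 2 = v 0 ∧ v 2 = - v 1) : Fp ∈ idealOf Z ^ 3 := by
  refine tQ (X 2 - X 0) (X 2 + X 1) ⟨X 2 * (X 2 + X 0) * (X 2 - X 1), ?_⟩ ?_ ?_ ?_
  · unfold Mp; ring
  · intro v hv; obtain ⟨h0, h1⟩ := h v hv; simp only [map_sub, eval_X]; linear_combination h0
  · intro v hv; obtain ⟨h0, h1⟩ := h v hv; simp only [map_add, eval_X]; linear_combination h1
  · intro v hv; obtain ⟨h0, h1⟩ := h v hv
    simp only [bp, map_sub, map_add, map_mul, map_pow, eval_X, eval_C]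
    have h1' : v 1 = - v 2 := by linear_combination h1
    rw [← h0, h1']; ring

theorem tQ3 (h : ∀ v ∈ Z, v 2 = - v 0 ∧ v 2 = v 1) : Fp ∈ idealOf Z ^ 3 := by
  refine tQ (X 2 + X 0) (X 2 - X 1) ⟨X 2 * (X 2 - X 0) * (X 2 + X 1), ?_⟩ ?_ ?_ ?_
  · unfold Mp; ring
  · intro v hv; obtain ⟨h0, h1⟩ := h v hv; simp only [map_add, eval_X]; linear_combination h0
  · intro v hv; obtain ⟨h0, h1⟩ := h v hv; simp only [map_sub, eval_X]; linear_combination h1
  · intro v hv; obtain ⟨h0, h1⟩ := h v hv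
    simp only [bp, map_sub, map_add, map_mul, map_pow, eval_X, eval_C]
    have h0' : v 0 = - v 2 := by linear_combination h0
    rw [← h1, h0']; ring

theorem tQ4 (h : ∀ v ∈ Z, v 2 = - v 0 ∧ v 2 = - v 1) : Fp ∈ idealOf Z ^ 3 := by
  refine tQ (X 2 + X 0) (X 2 + X 1) ⟨X 2 * (X 2 - X 0) * (X 2 - X 1), ?_⟩ ?_ ?_ ?_
  · unfold Mp; ring
  · intro v hv; obtain ⟨h0, h1⟩ := h v hv; simp only [map_add, eval_X]; linear_combination h0
  · intro v hv; obtain ⟨h0, h1⟩ := h v hv; simp only [map_add, eval_X]; linear_combination h1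
  · intro v hv; obtain ⟨h0, h1⟩ := h v hv
    simp only [bp, map_sub, map_add, map_mul, map_pow, eval_X, eval_C]
    have h0' : v 0 = - v 2 := by linear_combination h0
    have h1' : v 1 = - v 2 := by linear_combination h1
    rw [h0', h1']; ring

theorem C6 : (C 6 : MvPolynomial (Fin 3) ℂ) = 6 := map_ofNat _ _
theorem C12 : (C 12 : MvPolynomial (Fin 3) ℂ) = 12 := map_ofNat _ _
theorem C2 : (C 2 : MvPolynomial (Fin 3) ℂ) = 2 := map_ofNat _ _

theorem tR1 (h : ∀ v ∈ Z, v 2 = 0 ∧ v 0 = v 1) : Fp ∈ idealOf Z ^ 3 := by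
  refine tR (X 2) (X 2) (X 2 * ((C 6 * X 0 + C 12 * X 1) * ((X 2 - X 0) * (X 2 + X 0) * (X 2 - X 1)
    * (X 2 + X 1)) + ep * (X 0 ^ 2 + X 1 ^ 2 - C 2 * X 2 ^ 2)))
    (X 0 - X 1) ((X 0 - X 1) * ((X 0 + X 1) ^ 2 * ep))
    ⟨(X 2 - X 0) * (X 2 + X 0) * (X 2 - X 1) * (X 2 + X 1), by unfold Mp; ring⟩ ?_ ?_ ?_ ?_ ?_ ?_
  · unfold fp ap bp Mp; ring
  all_goals
    intro v hv; obtain ⟨h0, h1⟩ := h v hv
    simp [h0, h1]

theorem tR2 (h : ∀ v ∈ Z, v 2 = 0 ∧ v 0 = - v 1) : Fp ∈ idealOf Z ^ 3 := by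
  refine tR (X 2) (X 2) (X 2 * ((C 6 * X 0 + C 12 * X 1) * ((X 2 - X 0) * (X 2 + X 0) * (X 2 - X 1)
    * (X 2 + X 1)) + ep * (X 0 ^ 2 + X 1 ^ 2 - C 2 * X 2 ^ 2)))
    (X 0 + X 1) ((X 0 + X 1) * ((X 0 - X 1) ^ 2 * ep))
    ⟨(X 2 - X 0) * (X 2 + X 0) * (X 2 - X 1) * (X 2 + X 1), by unfold Mp; ring⟩ ?_ ?_ ?_ ?_ ?_ ?_
  · unfold fp ap bp Mp; ring
  all_goals
    intro v hv; obtain ⟨h0, h1⟩ := h v hv
    simp [h0, h1]

theorem tR3 (h : ∀ v ∈ Z, v 1 = 0 ∧ v 2 = v 0) : Fp ∈ idealOf Z ^ 3 := by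
  refine tR (X 2 - X 0) (X 2 - X 0) ((X 2 + X 0) * (X 2 ^ 2 * (C 6 * X 0 + C 12 * X 1) *
    (X 2 ^ 2 - X 1 ^ 2) - ep * (X 0 ^ 2 + C 2 * X 2 ^ 2)))
    (X 1) (X 1 * (ep * (X 1 ^ 2 - C 2 * X 0 ^ 2 + X 2 ^ 2)))
    ⟨X 2 * (X 2 + X 0) * (X 2 - X 1) * (X 2 + X 1), by unfold Mp; ring⟩ ?_ ?_ ?_ ?_ ?_ ?_
  · unfold fp ap bp Mp; rw [C2]; ring
  · intro v hv; obtain ⟨h0, h1⟩ := h v hv; simp [h0, h1]
  · intro v hv; obtain ⟨h0, h1⟩ := h v hv; simp [h0, h1]
  · intro v hv; obtain ⟨h0, h1⟩ := h v hv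
    simp only [ep, map_sub, map_add, map_mul, map_pow, eval_X, eval_C]
    rw [h0, h1]; ring
  · intro v hv; obtain ⟨h0, h1⟩ := h v hv; simp [h0]
  · intro v hv; obtain ⟨h0, h1⟩ := h v hv; simp [h0]

theorem tR4 (h : ∀ v ∈ Z, v 1 = 0 ∧ v 2 = - v 0) : Fp ∈ idealOf Z ^ 3 := by
  refine tR (X 2 + X 0) (X 2 + X 0) ((X 2 - X 0) * (X 2 ^ 2 * (C 6 * X 0 + C 12 * X 1) *
    (X 2 ^ 2 - X 1 ^ 2) - ep * (X 0 ^ 2 + C 2 * X 2 ^ 2)))
    (X 1) (X 1 * (ep * (X 1 ^ 2 - C 2 * X 0 ^ 2 + X 2 ^ 2)))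
    ⟨X 2 * (X 2 - X 0) * (X 2 - X 1) * (X 2 + X 1), by unfold Mp; ring⟩ ?_ ?_ ?_ ?_ ?_ ?_
  · unfold fp ap bp Mp; rw [C2]; ring
  · intro v hv; obtain ⟨h0, h1⟩ := h v hv; simp [h0, h1]
  · intro v hv; obtain ⟨h0, h1⟩ := h v hv; simp [h0, h1]
  · intro v hv; obtain ⟨h0, h1⟩ := h v hv
    simp only [ep, map_sub, map_add, map_mul, map_pow, eval_X, eval_C]
    rw [h0, h1]; ring
  · intro v hv; obtain ⟨h0, h1⟩ := h v hv; simp [h0]
  · intro v hv; obtain ⟨h0, h1⟩ := h v hv; simp [h0]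

theorem tR5 (h : ∀ v ∈ Z, v 0 = 0 ∧ v 2 = v 1) : Fp ∈ idealOf Z ^ 3 := by
  refine tR (X 2 - X 1) (X 2 - X 1) ((X 2 + X 1) * (X 2 ^ 2 * (C 6 * X 0 + C 12 * X 1) *
    (X 2 ^ 2 - X 0 ^ 2) - ep * (X 1 ^ 2 + C 2 * X 2 ^ 2)))
    (X 0) (X 0 * (ep * (X 0 ^ 2 - C 2 * X 1 ^ 2 + X 2 ^ 2)))
    ⟨X 2 * (X 2 - X 0) * (X 2 + X 0) * (X 2 + X 1), by unfold Mp; ring⟩ ?_ ?_ ?_ ?_ ?_ ?_
  · unfold fp ap bp Mp; rw [C2]; ring
  · intro v hv; obtain ⟨h0, h1⟩ := h v hv; simp [h0, h1]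
  · intro v hv; obtain ⟨h0, h1⟩ := h v hv; simp [h0, h1]
  · intro v hv; obtain ⟨h0, h1⟩ := h v hv
    simp only [ep, map_sub, map_add, map_mul, map_pow, eval_X, eval_C]
    rw [h0, h1]; ring
  · intro v hv; obtain ⟨h0, h1⟩ := h v hv; simp [h0]
  · intro v hv; obtain ⟨h0, h1⟩ := h v hv; simp [h0]

theorem tR6 (h : ∀ v ∈ Z, v 0 = 0 ∧ v 2 = - v 1) : Fp ∈ idealOf Z ^ 3 := by
  refine tR (X 2 + X 1) (X 2 + X 1) ((X 2 - X 1) * (X 2 ^ 2 * (C 6 * X 0 + C 12 * X 1) *
    (X 2 ^ 2 - X 0 ^ 2) - ep * (X 1 ^ 2 + C 2 * X 2 ^ 2)))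
    (X 0) (X 0 * (ep * (X 0 ^ 2 - C 2 * X 1 ^ 2 + X 2 ^ 2)))
    ⟨X 2 * (X 2 - X 0) * (X 2 + X 0) * (X 2 - X 1), by unfold Mp; ring⟩ ?_ ?_ ?_ ?_ ?_ ?_
  · unfold fp ap bp Mp; rw [C2]; ring
  · intro v hv; obtain ⟨h0, h1⟩ := h v hv; simp [h0, h1]
  · intro v hv; obtain ⟨h0, h1⟩ := h v hv; simp [h0, h1]
  · intro v hv; obtain ⟨h0, h1⟩ := h v hv
    simp only [ep, map_sub, map_add, map_mul, map_pow, eval_X, eval_C]
    rw [h0, h1]; ring
  · intro v hv; obtain ⟨h0, h1⟩ := h v hv; simp [h0]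
  · intro v hv; obtain ⟨h0, h1⟩ := h v hv; simp [h0]

/-! ### hyperplanes of `ℂ^3` -/

def form (c : Fin 3 → ℂ) : (Fin 3 → ℂ) →ₗ[ℂ] ℂ :=
  c 0 • LinearMap.proj 0 + c 1 • LinearMap.proj 1 + c 2 • LinearMap.proj 2

theorem form_apply (c v : Fin 3 → ℂ) : form c v = c 0 * v 0 + c 1 * v 1 + c 2 * v 2 := by
  simp [form]

def hp (c : Fin 3 → ℂ) : Submodule ℂ (Fin 3 → ℂ) := LinearMap.ker (form c)

theorem mem_hp (c v : Fin 3 → ℂ) : v ∈ hp c ↔ c 0 * v 0 + c 1 * v 1 + c 2 * v 2 = 0 := by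
  rw [hp, LinearMap.mem_ker, form_apply]

theorem form_ne {c : Fin 3 → ℂ} (hc : c ≠ 0) : form c ≠ 0 := by
  intro h
  apply hc
  funext i
  have := congrArg (fun f => f (Pi.single i 1)) h
  simp only [form_apply, LinearMap.zero_apply] at this
  fin_cases i <;> simpa using this

theorem finrank_hp {c : Fin 3 → ℂ} (hc : c ≠ 0) : Module.finrank ℂ (hp c) = 2 := by
  have h := Module.Dual.finrank_ker_add_one_of_ne_zero (form_ne hc)
  rw [Module.finrank_fin_fun] at h
  unfold hp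
  omega

theorem finrank_le3 (X : Submodule ℂ (Fin 3 → ℂ)) : Module.finrank ℂ X ≤ 3 := by
  have := Submodule.finrank_le X
  rwa [Module.finrank_fin_fun] at this

theorem eq_top_of3 {X : Submodule ℂ (Fin 3 → ℂ)} (h : 3 ≤ Module.finrank ℂ X) : X = ⊤ := by
  apply Submodule.eq_top_of_finrank_eq
  rw [Module.finrank_fin_fun]
  exact le_antisymm (finrank_le3 X) h

theorem finrank_inf {H H' : Submodule ℂ (Fin 3 → ℂ)} (h : Module.finrank ℂ H = 2)
    (h' : Module.finrank ℂ H' = 2) (hne : H ≠ H') : Module.finrank ℂ (H ⊓ H' : Submodule ℂ (Fin 3 → ℂ)) = 1 := by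
  have h1 := Submodule.finrank_sup_add_finrank_inf_eq H H'
  have h2 : H < H ⊔ H' := by
    refine lt_of_le_of_ne le_sup_left ?_
    intro e
    have : H' ≤ H := by rw [e]; exact le_sup_right
    exact hne (Submodule.eq_of_le_of_finrank_eq this (by rw [h, h'])).symm
  have h3 := Submodule.finrank_lt_finrank_of_lt h2
  have h4 := finrank_le3 (H ⊔ H')
  omega

/-! ### the arrangement -/

def ma : Fin 5 → ℂ := ![0, 1, -1, 0, 0]
def mb : Fin 5 → ℂ := ![0, 0, 0, 1, -1]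

def lp (i : Fin 7) : Submodule ℂ (Fin 3 → ℂ) := hp ![dw i, -du i, 0]
def mp (j : Fin 5) : Submodule ℂ (Fin 3 → ℂ) := hp ![-ma j, -mb j, 1]

theorem mem_lp (i : Fin 7) (v : Fin 3 → ℂ) : v ∈ lp i ↔ dw i * v 0 = du i * v 1 := by
  rw [lp, mem_hp]
  simp only [Matrix.cons_val_zero, Matrix.cons_val_one, Matrix.cons_val]
  constructor
  · intro h; linear_combination h
  · intro h; linear_combination h

theorem mem_mp (j : Fin 5) (v : Fin 3 → ℂ) : v ∈ mp j ↔ v 2 = ma j * v 0 + mb j * v 1 := by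
  rw [mp, mem_hp]
  simp only [Matrix.cons_val_zero, Matrix.cons_val_one, Matrix.cons_val]
  constructor
  · intro h; linear_combination h
  · intro h; linear_combination h

theorem lp_vec_ne (i : Fin 7) : (![dw i, -du i, 0] : Fin 3 → ℂ) ≠ 0 := by
  intro h
  have h0 := congrFun h 0
  have h1 := congrFun h 1
  simp only [Matrix.cons_val_zero, Matrix.cons_val_one, Pi.zero_apply, neg_eq_zero] at h0 h1
  fin_cases i
  · exact one_ne_zero h0
  · exact one_ne_zero h1
  · exact one_ne_zero h0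
  · exact one_ne_zero h1
  · exact one_ne_zero h0
  · exact two_ne_zero h1
  · exact one_ne_zero h1

theorem mp_vec_ne (j : Fin 5) : (![-ma j, -mb j, 1] : Fin 3 → ℂ) ≠ 0 := by
  intro h
  have h2 := congrFun h 2
  simp at h2

theorem finrank_lp (i : Fin 7) : Module.finrank ℂ (lp i) = 2 := finrank_hp (lp_vec_ne i)
theorem finrank_mp (j : Fin 5) : Module.finrank ℂ (mp j) = 2 := finrank_hp (mp_vec_ne j)

open Classical in
noncomputable def Arr : Finset (Submodule ℂ (Fin 3 → ℂ)) :=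
  Finset.univ.image lp ∪ Finset.univ.image mp

theorem mem_Arr (H : Submodule ℂ (Fin 3 → ℂ)) : H ∈ Arr ↔ (∃ i, lp i = H) ∨ (∃ j, mp j = H) := by
  simp [Arr]

theorem lp_mem (i : Fin 7) : lp i ∈ Arr := (mem_Arr _).mpr (Or.inl ⟨i, rfl⟩)
theorem mp_mem (j : Fin 5) : mp j ∈ Arr := (mem_Arr _).mpr (Or.inr ⟨j, rfl⟩)

theorem Arr_hyp : ∀ H ∈ Arr, IsHyperplane H := by
  intro H hH
  rcases (mem_Arr H).mp hH with ⟨i, rfl⟩ | ⟨j, rfl⟩
  · exact ⟨_, form_ne (lp_vec_ne i), rfl⟩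
  · exact ⟨_, form_ne (mp_vec_ne j), rfl⟩

theorem Arr_finrank {H : Submodule ℂ (Fin 3 → ℂ)} (hH : H ∈ Arr) : Module.finrank ℂ H = 2 := by
  rcases (mem_Arr H).mp hH with ⟨i, rfl⟩ | ⟨j, rfl⟩
  · exact finrank_lp i
  · exact finrank_mp j

/-- two different planes through the axis meet in the axis -/
theorem det_ne (i k : Fin 7) (h : i ≠ k) : dw i * du k - dw k * du i ≠ 0 := by
  revert i k
  have : ∀ i k : Fin 7, i ≠ k → dw i * du k - dw k * du i ≠ 0 := by
    intro i k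
    fin_cases i <;> fin_cases k <;> intro h <;>
      first
        | exact absurd rfl h
        | (simp only [du, dw, Fin.zero_eta, Fin.mk_one, Fin.reduceFinMk, Matrix.cons_val_zero,
            Matrix.cons_val_one, Matrix.cons_val]; norm_num)
  exact this

theorem lp_axis {i k : Fin 7} (h : i ≠ k) {v : Fin 3 → ℂ} (hi : v ∈ lp i) (hk : v ∈ lp k) :
    v 0 = 0 ∧ v 1 = 0 := by
  rw [mem_lp] at hi hk
  have hd := det_ne i k h
  constructor
  · apply mul_left_cancel₀ hd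
    linear_combination du k * hi - du i * hk
  · apply mul_left_cancel₀ hd
    linear_combination dw k * hi - dw i * hk

def kk : Fin 5 → Fin 5 → Fin 7 :=
  ![![0,0,0,1,1],![0,0,0,2,3],![0,0,0,3,2],![1,2,3,0,1],![1,3,2,1,0]]

theorem mp_pair {j j' : Fin 5} (h : j ≠ j') {v : Fin 3 → ℂ} (h1 : v ∈ mp j) (h2 : v ∈ mp j') :
    v ∈ lp (kk j j') := by
  rw [mem_mp] at h1 h2
  rw [mem_lp]
  fin_cases j <;> fin_cases j' <;>
    first
      | exact absurd rfl h
      | (simp only [kk, ma, mb, du, dw, Fin.zero_eta, Fin.mk_one, Fin.reduceFinMk,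
          Matrix.cons_val_zero, Matrix.cons_val_one, Matrix.cons_val] at h1 h2 ⊢
         first
          | linear_combination h1 - h2
          | linear_combination h2 - h1
          | linear_combination (h1 - h2) / 2
          | linear_combination (h2 - h1) / 2)



theorem dvd_e1 : (X 0 - C 2 * X 1 : MvPolynomial (Fin 3) ℂ) ∣ ep :=
  ⟨(X 0 + C 2 * X 1) * (C 2 * X 0 - X 1), by unfold ep; ring⟩
theorem dvd_e2 : (X 0 + C 2 * X 1 : MvPolynomial (Fin 3) ℂ) ∣ ep :=
  ⟨(X 0 - C 2 * X 1) * (C 2 * X 0 - X 1), by unfold ep; ring⟩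
theorem dvd_e3 : (C 2 * X 0 - X 1 : MvPolynomial (Fin 3) ℂ) ∣ ep :=
  ⟨(X 0 - C 2 * X 1) * (X 0 + C 2 * X 1), by unfold ep; ring⟩

/-- the linear form of `mp j` -/
noncomputable def mf (j : Fin 5) : MvPolynomial (Fin 3) ℂ := X 2 - (C (ma j) * X 0 + C (mb j) * X 1)

theorem mf_dvd (j : Fin 5) : mf j ∣ Mp := by
  fin_cases j
  · refine ⟨(X 2 - X 0) * (X 2 + X 0) * (X 2 - X 1) * (X 2 + X 1), ?_⟩
    simp [mf, ma, mb, Mp]; ring
  · refine ⟨X 2 * (X 2 + X 0) * (X 2 - X 1) * (X 2 + X 1), ?_⟩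
    simp [mf, ma, mb, Mp]; ring
  · refine ⟨X 2 * (X 2 - X 0) * (X 2 - X 1) * (X 2 + X 1), ?_⟩
    simp [mf, ma, mb, Mp]; ring
  · refine ⟨X 2 * (X 2 - X 0) * (X 2 + X 0) * (X 2 + X 1), ?_⟩
    simp [mf, ma, mb, Mp]; ring
  · refine ⟨X 2 * (X 2 - X 0) * (X 2 + X 0) * (X 2 - X 1), ?_⟩
    simp [mf, ma, mb, Mp]; ring

theorem mf_van {j : Fin 5} (h : Z ≤ mp j) : ∀ v ∈ Z, eval v (mf j) = 0 := by
  intro v hv
  have := (mem_mp j v).mp (h hv)
  unfold mf
  simp only [map_sub, map_add, map_mul, eval_X, eval_C]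
  linear_combination this

theorem F_mem (i : Fin 7) (j : Fin 5) (hi : Z ≤ lp i) (hj : Z ≤ mp j) : Fp ∈ idealOf Z ^ 3 := by
  have key : ∀ v ∈ Z, dw i * v 0 = du i * v 1 ∧ v 2 = ma j * v 0 + mb j * v 1 :=
    fun v hv => ⟨(mem_lp i v).mp (hi hv), (mem_mp j v).mp (hj hv)⟩
  have hm := mf_van hj
  fin_cases i
  · -- x = 0
    simp only [du, dw, Fin.zero_eta, Matrix.cons_val_zero] at key
    fin_cases j <;>
    simp only [ma, mb, Fin.zero_eta, Fin.mk_one, Fin.reduceFinMk,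
          Matrix.cons_val_zero, Matrix.cons_val_one, Matrix.cons_val] at key
    · exact tT1 fun v hv => by obtain ⟨a, b⟩ := key v hv; constructor <;> grind
    · exact tT1 fun v hv => by obtain ⟨a, b⟩ := key v hv; constructor <;> grind
    · exact tT1 fun v hv => by obtain ⟨a, b⟩ := key v hv; constructor <;> grind
    · exact tR5 fun v hv => by obtain ⟨a, b⟩ := key v hv; constructor <;> grind
    · exact tR6 fun v hv => by obtain ⟨a, b⟩ := key v hv; constructor <;> grind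
  · -- y = 0
    simp only [du, dw, Fin.mk_one, Matrix.cons_val_one, Matrix.cons_val_zero] at key
    fin_cases j <;>
    simp only [ma, mb, Fin.zero_eta, Fin.mk_one, Fin.reduceFinMk,
          Matrix.cons_val_zero, Matrix.cons_val_one, Matrix.cons_val] at key
    · exact tT2 fun v hv => by obtain ⟨a, b⟩ := key v hv; constructor <;> grind
    · exact tR3 fun v hv => by obtain ⟨a, b⟩ := key v hv; constructor <;> grind
    · exact tR4 fun v hv => by obtain ⟨a, b⟩ := key v hv; constructor <;> grind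
    · exact tT2 fun v hv => by obtain ⟨a, b⟩ := key v hv; constructor <;> grind
    · exact tT2 fun v hv => by obtain ⟨a, b⟩ := key v hv; constructor <;> grind
  · -- x = y
    simp only [du, dw, Fin.reduceFinMk, Matrix.cons_val] at key
    fin_cases j <;>
    simp only [ma, mb, Fin.zero_eta, Fin.mk_one, Fin.reduceFinMk,
          Matrix.cons_val_zero, Matrix.cons_val_one, Matrix.cons_val] at key
    · exact tR1 fun v hv => by obtain ⟨a, b⟩ := key v hv; constructor <;> grind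
    · exact tQ1 fun v hv => by obtain ⟨a, b⟩ := key v hv; constructor <;> grind
    · exact tQ4 fun v hv => by obtain ⟨a, b⟩ := key v hv; constructor <;> grind
    · exact tQ1 fun v hv => by obtain ⟨a, b⟩ := key v hv; constructor <;> grind
    · exact tQ4 fun v hv => by obtain ⟨a, b⟩ := key v hv; constructor <;> grind
  · -- x = -y
    simp only [du, dw, Fin.reduceFinMk, Matrix.cons_val] at key
    fin_cases j <;>
    simp only [ma, mb, Fin.zero_eta, Fin.mk_one, Fin.reduceFinMk,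
          Matrix.cons_val_zero, Matrix.cons_val_one, Matrix.cons_val] at key
    · exact tR2 fun v hv => by obtain ⟨a, b⟩ := key v hv; constructor <;> grind
    · exact tQ2 fun v hv => by obtain ⟨a, b⟩ := key v hv; constructor <;> grind
    · exact tQ3 fun v hv => by obtain ⟨a, b⟩ := key v hv; constructor <;> grind
    · exact tQ3 fun v hv => by obtain ⟨a, b⟩ := key v hv; constructor <;> grind
    · exact tQ2 fun v hv => by obtain ⟨a, b⟩ := key v hv; constructor <;> grind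
  · -- x = 2 y
    simp only [du, dw, Fin.reduceFinMk, Matrix.cons_val] at key
    refine tE _ _ dvd_e1 (mf_dvd j) ?_ hm
    intro v hv
    obtain ⟨a, -⟩ := key v hv
    simp only [map_sub, map_add, map_mul, eval_X, eval_C]
    linear_combination a
  · simp only [du, dw, Fin.reduceFinMk, Matrix.cons_val] at key
    refine tE _ _ dvd_e2 (mf_dvd j) ?_ hm
    intro v hv
    obtain ⟨a, -⟩ := key v hv
    simp only [map_sub, map_add, map_mul, eval_X, eval_C]
    linear_combination -a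
  · simp only [du, dw, Fin.reduceFinMk, Matrix.cons_val] at key
    refine tE _ _ dvd_e3 (mf_dvd j) ?_ hm
    intro v hv
    obtain ⟨a, -⟩ := key v hv
    simp only [map_sub, map_add, map_mul, eval_X, eval_C]
    linear_combination a

/-! ### flats -/

theorem flat_le {B : Finset (Submodule ℂ (Fin 3 → ℂ))}
    {H : Submodule ℂ (Fin 3 → ℂ)} (h : H ∈ B) : sInf (B : Set (Submodule ℂ (Fin 3 → ℂ))) ≤ H :=
  sInf_le (Finset.mem_coe.mpr h)

theorem sInf_const {B : Finset (Submodule ℂ (Fin 3 → ℂ))} {H : Submodule ℂ (Fin 3 → ℂ)}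
    (hH : H ∈ B) (h : ∀ K ∈ B, K = H) : sInf (B : Set (Submodule ℂ (Fin 3 → ℂ))) = H := by
  apply le_antisymm (sInf_le (Finset.mem_coe.mpr hH))
  refine le_sInf fun K hK => ?_
  rw [h K (Finset.mem_coe.mp hK)]

/-- the axis `x = y = 0` -/
def axis : Submodule ℂ (Fin 3 → ℂ) := lp 0 ⊓ lp 1

theorem lp0_ne_lp1 : lp 0 ≠ lp 1 := by
  intro h
  have : (![0, 1, 0] : Fin 3 → ℂ) ∈ lp 0 := by rw [mem_lp]; simp [du, dw]
  rw [h, mem_lp] at this
  simp [du, dw] at this

theorem mem_axis (v : Fin 3 → ℂ) : v ∈ axis ↔ v 0 = 0 ∧ v 1 = 0 := by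
  unfold axis
  rw [Submodule.mem_inf, mem_lp, mem_lp]
  simp [du, dw, eq_comm]

theorem finrank_axis : Module.finrank ℂ axis = 1 :=
  finrank_inf (finrank_lp 0) (finrank_lp 1) lp0_ne_lp1

theorem axis_le_lp (i : Fin 7) : axis ≤ lp i := by
  intro v hv
  obtain ⟨h0, h1⟩ := (mem_axis v).mp hv
  rw [mem_lp, h0, h1]; ring

theorem axis_not_le_mp (j : Fin 5) : ¬ axis ≤ mp j := by
  intro h
  have : (![0, 0, 1] : Fin 3 → ℂ) ∈ axis := by rw [mem_axis]; simp
  have := h this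
  rw [mem_mp] at this
  simp at this

/-- a codimension-two flat is the axis or lies on a plane of each of the two kinds -/
theorem flat_cases {Y : Submodule ℂ (Fin 3 → ℂ)} (hY : Y ∈ codimTwo Arr) :
    (∀ v ∈ Y, v 0 = 0 ∧ v 1 = 0) ∨ ∃ i j, Y ≤ lp i ∧ Y ≤ mp j := by
  obtain ⟨⟨B, hB, rfl⟩, hr⟩ := hY
  have hfr : Module.finrank ℂ (sInf (B : Set (Submodule ℂ (Fin 3 → ℂ))) :
      Submodule ℂ (Fin 3 → ℂ)) = 1 := by
    unfold rk at hr
    omega
  by_cases hl : ∃ i, lp i ∈ B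
  · obtain ⟨i, hi⟩ := hl
    have : ∃ K ∈ B, K ≠ lp i := by
      by_contra hcon
      push Not at hcon
      have := sInf_const hi hcon
      rw [this, finrank_lp] at hfr
      omega
    obtain ⟨K, hK, hne⟩ := this
    rcases (mem_Arr K).mp (hB hK) with ⟨k, rfl⟩ | ⟨j, rfl⟩
    · left
      intro v hv
      have hik : i ≠ k := by rintro rfl; exact hne rfl
      exact lp_axis hik (flat_le hi hv) (flat_le hK hv)
    · right
      exact ⟨i, j, flat_le hi, flat_le hK⟩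
  · push Not at hl
    have hall : ∀ K ∈ B, ∃ j, mp j = K := by
      intro K hK
      rcases (mem_Arr K).mp (hB hK) with ⟨k, rfl⟩ | h
      · exact absurd hK (hl k)
      · exact h
    have hne : B.Nonempty := by
      by_contra hemp
      rw [Finset.not_nonempty_iff_eq_empty] at hemp
      subst hemp
      rw [Finset.coe_empty, sInf_empty, finrank_top, Module.finrank_fin_fun] at hfr
      omega
    obtain ⟨K0, hK0⟩ := hne
    obtain ⟨j, rfl⟩ := hall K0 hK0
    have : ∃ K ∈ B, K ≠ mp j := by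
      by_contra hcon
      push Not at hcon
      have := sInf_const hK0 hcon
      rw [this, finrank_mp] at hfr
      omega
    obtain ⟨K, hK, hne⟩ := this
    obtain ⟨j', rfl⟩ := hall K hK
    have hjj : j ≠ j' := by rintro rfl; exact hne rfl
    right
    refine ⟨kk j j', j, ?_, flat_le hK0⟩
    intro v hv
    exact mp_pair hjj (flat_le hK0 hv) (flat_le hK hv)

theorem F_mem_symb : Fp ∈ symbPow Arr 3 := by
  unfold symbPow
  rw [Ideal.mem_iInf]
  intro Y
  rw [Ideal.mem_iInf]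
  intro hY
  rcases flat_cases hY with h | ⟨i, j, hi, hj⟩
  · exact tP h
  · exact F_mem i j hi hj

theorem lp_ne_mp (i : Fin 7) (j : Fin 5) : lp i ≠ mp j := by
  intro h
  exact axis_not_le_mp j (h ▸ axis_le_lp i)

open Classical in
theorem pt_codimTwo (i : Fin 7) (j : Fin 5) : lp i ⊓ mp j ∈ codimTwo Arr := by
  refine ⟨⟨{lp i, mp j}, ?_, ?_⟩, ?_⟩
  · intro K hK
    rcases Finset.mem_insert.mp hK with h | h
    · rw [h]; exact lp_mem i
    · rw [Finset.mem_singleton.mp h]; exact mp_mem j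
  · rw [Finset.coe_pair, sInf_pair]
  · unfold rk
    rw [finrank_inf (finrank_lp i) (finrank_mp j) (lp_ne_mp i j)]

theorem good_of_mem {A : MvPolynomial (Fin 3) ℂ} (hA : A ∈ singIdeal Arr) (i : ℕ) (j : Fin 5) :
    Good (ma j) (mb j) (homogeneousComponent i A) := by
  intro k
  apply comp_vanish
  intro t
  unfold singIdeal at hA
  rw [Ideal.mem_iInf] at hA
  have h1 := hA (lp k ⊓ mp j)
  rw [Ideal.mem_iInf] at h1
  have h2 := h1 (pt_codimTwo k j)
  refine h2 _ ?_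
  rw [Submodule.mem_inf, mem_lp, mem_mp]
  simp only [Matrix.cons_val_zero, Matrix.cons_val_one, Matrix.cons_val]
  constructor <;> ring

theorem goodL_of_mem {A : MvPolynomial (Fin 3) ℂ} (hA : A ∈ singIdeal Arr) : GoodL A := by
  intro i
  have h := good_of_mem hA i
  exact ⟨by simpa [ma, mb] using h 0, by simpa [ma, mb] using h 1, by simpa [ma, mb] using h 2,
    by simpa [ma, mb] using h 3, by simpa [ma, mb] using h 4⟩

theorem F_not_mem : Fp ∉ singIdeal Arr ^ 2 := by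
  intro hF
  have key : ∀ G ∈ singIdeal Arr ^ 2, Lam (homogeneousComponent 15 G) = 0 := by
    intro G hG
    rw [pow_two] at hG
    refine Submodule.mul_induction_on hG ?_ ?_
    · intro a ha b hb
      exact Lam_comp (goodL_of_mem ha) (goodL_of_mem hb)
    · intro a b ha hb
      rw [map_add, map_add, ha, hb, add_zero]
  have := key Fp hF
  rw [Lam_F] at this
  norm_num at this

/-! ### supersolvability -/

theorem meet_eq {A : Finset (Submodule ℂ (Fin 3 → ℂ))} {X Y : Submodule ℂ (Fin 3 → ℂ)}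
    (h : X ⊔ Y ∈ flats A) : meet A X Y = X ⊔ Y := by
  obtain ⟨B, hB, hXY⟩ := h
  apply le_antisymm
  · conv_rhs => rw [hXY]
    refine le_sInf fun K hK => ?_
    refine sInf_le ⟨hB (Finset.mem_coe.mp hK), ?_⟩
    rw [hXY]
    exact sInf_le hK
  · exact le_sInf fun K hK => hK.2

theorem modular_of_sup {A : Finset (Submodule ℂ (Fin 3 → ℂ))} {X : Submodule ℂ (Fin 3 → ℂ)}
    (h : ∀ Y ∈ flats A, X ⊔ Y ∈ flats A) : IsModular A X := by
  intro Y hY
  rw [meet_eq (h Y hY)]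
  unfold rk
  have h1 := Submodule.finrank_sup_add_finrank_inf_eq X Y
  have h2 := finrank_le3 (X ⊔ Y)
  have h3 := finrank_le3 (X ⊓ Y)
  have h4 := finrank_le3 X
  have h5 := finrank_le3 Y
  omega

theorem top_flat : (⊤ : Submodule ℂ (Fin 3 → ℂ)) ∈ flats Arr :=
  ⟨∅, by simp, by simp⟩

theorem hyp_flat {H : Submodule ℂ (Fin 3 → ℂ)} (h : H ∈ Arr) : H ∈ flats Arr :=
  ⟨{H}, by simpa using h, by simp⟩

open Classical in
theorem axis_flat : axis ∈ flats Arr := by
  refine ⟨{lp 0, lp 1}, ?_, ?_⟩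
  · intro K hK
    rcases Finset.mem_insert.mp hK with h | h
    · rw [h]; exact lp_mem 0
    · rw [Finset.mem_singleton.mp h]; exact lp_mem 1
  · rw [Finset.coe_pair, sInf_pair]; rfl

open Classical in
theorem bot_flat : (⊥ : Submodule ℂ (Fin 3 → ℂ)) ∈ flats Arr := by
  refine ⟨{lp 0, lp 1, mp 0}, ?_, ?_⟩
  · intro K hK
    rcases Finset.mem_insert.mp hK with h | h
    · rw [h]; exact lp_mem 0
    rcases Finset.mem_insert.mp h with h | h
    · rw [h]; exact lp_mem 1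
    · rw [Finset.mem_singleton.mp h]; exact mp_mem 0
  · symm
    rw [eq_bot_iff]
    intro v hv
    have h0 : v ∈ lp 0 := (Submodule.mem_sInf.mp hv) _ (by simp)
    have h1 : v ∈ lp 1 := (Submodule.mem_sInf.mp hv) _ (by simp)
    have h2 : v ∈ mp 0 := (Submodule.mem_sInf.mp hv) _ (by simp)
    have h3 := (mem_axis v).mp ⟨h0, h1⟩
    rw [mem_mp] at h2
    simp only [ma, mb, Matrix.cons_val_zero] at h2
    rw [Submodule.mem_bot]
    funext i
    fin_cases i
    · exact h3.1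
    · exact h3.2
    · simpa using h2

/-- if a plane of the arrangement contains the axis and `Y` then `axis ⊔ Y` is a flat -/
theorem axis_sup {Y H : Submodule ℂ (Fin 3 → ℂ)} (hH : H ∈ Arr) (h1 : axis ≤ H) (h2 : Y ≤ H) :
    axis ⊔ Y ∈ flats Arr := by
  by_cases hY : Y ≤ axis
  · rw [sup_eq_left.mpr hY]; exact axis_flat
  · have hlt : axis < axis ⊔ Y := by
      refine lt_of_le_of_ne le_sup_left ?_
      intro e
      exact hY (by rw [e]; exact le_sup_right)
    have h3 := Submodule.finrank_lt_finrank_of_lt hlt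
    rw [finrank_axis] at h3
    have h4 : axis ⊔ Y ≤ H := sup_le h1 h2
    have h5 := Submodule.finrank_mono h4
    rw [Arr_finrank hH] at h5
    have : axis ⊔ Y = H := Submodule.eq_of_le_of_finrank_eq h4 (by rw [Arr_finrank hH]; omega)
    rw [this]
    exact hyp_flat hH

theorem plane_sup {H Y : Submodule ℂ (Fin 3 → ℂ)} (hH : H ∈ Arr) : H ⊔ Y ∈ flats Arr := by
  by_cases hY : Y ≤ H
  · rw [sup_eq_left.mpr hY]; exact hyp_flat hH
  · have hlt : H < H ⊔ Y := by
      refine lt_of_le_of_ne le_sup_left ?_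
      intro e
      exact hY (by rw [e]; exact le_sup_right)
    have h3 := Submodule.finrank_lt_finrank_of_lt hlt
    rw [Arr_finrank hH] at h3
    rw [eq_top_of3 (X := H ⊔ Y) (by omega)]
    exact top_flat

theorem axis_modular : IsModular Arr axis := by
  apply modular_of_sup
  rintro Y ⟨B, hB, rfl⟩
  by_cases hl : ∃ i, lp i ∈ B
  · obtain ⟨i, hi⟩ := hl
    exact axis_sup (lp_mem i) (axis_le_lp i) (flat_le hi)
  · push Not at hl
    have hall : ∀ K ∈ B, ∃ j, mp j = K := by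
      intro K hK
      rcases (mem_Arr K).mp (hB hK) with ⟨k, rfl⟩ | h
      · exact absurd hK (hl k)
      · exact h
    rcases B.eq_empty_or_nonempty with rfl | ⟨K0, hK0⟩
    · rw [Finset.coe_empty, sInf_empty, sup_top_eq]; exact top_flat
    · obtain ⟨j, rfl⟩ := hall K0 hK0
      by_cases hc : ∃ K ∈ B, K ≠ mp j
      · obtain ⟨K, hK, hne⟩ := hc
        obtain ⟨j', rfl⟩ := hall K hK
        have hjj : j ≠ j' := by rintro rfl; exact hne rfl
        refine axis_sup (lp_mem (kk j j')) (axis_le_lp _) ?_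
        intro v hv
        exact mp_pair hjj (flat_le hK0 hv) (flat_le hK hv)
      · push Not at hc
        rw [sInf_const hK0 hc, sup_comm]
        exact plane_sup (mp_mem j)

theorem Arr_supersolvable : IsSupersolvable Arr := by
  refine ⟨{⊤, lp 0, axis, ⊥}, ?_, ?_, ?_, ?_⟩
  · intro X hX
    rcases hX with rfl | rfl | rfl | rfl
    · exact top_flat
    · exact hyp_flat (lp_mem 0)
    · exact axis_flat
    · exact bot_flat
  · have h1 : axis ≤ lp 0 := axis_le_lp 0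
    intro X hX Y hY hne
    rcases hX with rfl | rfl | rfl | rfl <;> rcases hY with rfl | rfl | rfl | rfl <;>
      first
        | exact absurd rfl hne
        | exact Or.inl le_top
        | exact Or.inr le_top
        | exact Or.inl bot_le
        | exact Or.inr bot_le
        | exact Or.inl h1
        | exact Or.inr h1
  · intro D hD hchain hKD
    apply Set.Subset.antisymm _ hKD
    intro X hX
    have hax : axis ∈ D := hKD (by simp)
    have hl0 : lp 0 ∈ D := hKD (by simp)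
    rcases hchain.total hX hax with h | h
    · have h1 := Submodule.finrank_mono h
      rw [finrank_axis] at h1
      rcases Nat.eq_zero_or_pos (Module.finrank ℂ X) with h0 | h0
      · have : X = ⊥ := Submodule.finrank_eq_zero.mp h0
        rw [this]; simp
      · have : X = axis := Submodule.eq_of_le_of_finrank_eq h (by rw [finrank_axis]; omega)
        rw [this]; simp
    · rcases hchain.total hX hl0 with h' | h'
      · by_cases hXa : X = axis
        · rw [hXa]; simp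
        · have hlt : axis < X := lt_of_le_of_ne h (Ne.symm hXa)
          have h3 := Submodule.finrank_lt_finrank_of_lt hlt
          rw [finrank_axis] at h3
          have h5 := Submodule.finrank_mono h'
          rw [finrank_lp] at h5
          have : X = lp 0 := Submodule.eq_of_le_of_finrank_eq h' (by rw [finrank_lp]; omega)
          rw [this]; simp
      · by_cases hXa : X = lp 0
        · rw [hXa]; simp
        · have hlt : lp 0 < X := lt_of_le_of_ne h' (Ne.symm hXa)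
          have h3 := Submodule.finrank_lt_finrank_of_lt hlt
          rw [finrank_lp] at h3
          rw [eq_top_of3 (X := X) (by omega)]; simp
  · intro X hX
    rcases hX with rfl | rfl | rfl | rfl
    · exact modular_of_sup fun Y _ => by rw [top_sup_eq]; exact top_flat
    · exact modular_of_sup fun Y _ => plane_sup (lp_mem 0)
    · exact axis_modular
    · exact modular_of_sup fun Y hY => by rw [bot_sup_eq]; exact hY

/-- **The containment `J^(2r-1) ⊆ J^r` fails for `r = 2` for a supersolvable arrangement of planes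
in `ℂ^3`.** -/
theorem result : ∃ A : Finset (Submodule ℂ (Fin 3 → ℂ)), (∀ H ∈ A, IsHyperplane H) ∧
    IsSupersolvable A ∧ ¬ symbPow A (2 * 2 - 1) ≤ singIdeal A ^ 2 :=
  ⟨Arr, Arr_hyp, Arr_supersolvable, fun h => F_not_mem (h F_mem_symb)⟩

end Pool.Agent.Results.MP_8050b7_ag.ContainmentFails
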